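import Pool.Agent.MP_cbe134_nt.FFExact
import Mathlib
import Pool.Agent.MP_cbe134_nt.FFLetters

section

/-! Sequences of rational functions of bounded height satisfying a Frobenius recursion. -/

open Finset Polynomial

namespace Pool.Agent.MP_3924c3_nt

open Pool.Agent.MP_cbe134_nt.FF

variable {F k : Type*} [Field F] [Fintype F] [Field k] [Algebra F k] {t : k}

/-- the product of the `t - X ^ q ^ i` for `i < n` -/
noncomputable def PP (q : ℕ) (t : k) (n : ℕ) : k[X] := ∏ i ∈ range n, (C t - X ^ q ^ i)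

lemma PP_succ (q n : ℕ) : PP q t (n + 1) = (C t - X) * expand k q (PP q t n) := by
  rw [PP, prod_range_succ', mul_comm, pow_zero, pow_one, PP, map_prod]
  congr 1
  exact prod_congr rfl fun i _ => by simp [← pow_mul, pow_succ']

lemma PP_ne {q : ℕ} (hq : 2 ≤ q) (n : ℕ) : PP q t n ≠ 0 := by
  induction n with
  | zero => simp [PP]
  | succ n ih => rw [PP_succ]; exact mul_ne_zero (Y_ne t) ((expand_ne_zero (by omega)).2 ih)

lemma iter_rel {q a b : ℕ} (hq : 2 ≤ q) {f g : ℕ → k[X]} (hf : ∀ n, f n ≠ 0)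
    (h : ∀ n, f (n + 1) * expand k q (g n) * (C t - X) ^ a =
      g (n + 1) * expand k q (f n) * (C t - X) ^ b) (n : ℕ) :
    f n * expand k (q ^ n) (g 0) * PP q t n ^ a = g n * expand k (q ^ n) (f 0) * PP q t n ^ b := by
  induction n with
  | zero => simp [PP, mul_comm]
  | succ n ih =>
    have h1 := congrArg (expand k q) ih
    simp only [map_mul, map_pow, expand_expand, ← pow_succ'] at h1
    refine mul_left_cancel₀ ((expand_ne_zero (p := q) (by omega)).2 (hf n)) ?_
    rw [PP_succ, mul_pow, mul_pow]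
    linear_combination f (n + 1) * (C t - X) ^ a * h1 +
      expand k (q ^ (n + 1)) (f 0) * expand k q (PP q t n) ^ b * h n

lemma root_bound (ht : Tr F t) {n e : ℕ} {u v w : k[X]} (he : e ≠ 0) (hv : v ≠ 0) (hw : w ≠ 0)
    (h : u * PP (qq F) t n ^ e = v * expand k (qq F ^ n) w) : n ≤ v.natDegree + w.natDegree := by
  classical
  let φ : k →+* k := (frp F k n).toRingHom
  have h0 : v.map φ * w ≠ 0 := mul_ne_zero (by simpa using hv) hw
  have h1 : (range n).image (fun j => t ^ qq F ^ (j + 1)) ⊆ (v.map φ * w).roots.toFinset := by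
    intro x hx
    obtain ⟨j, hj, rfl⟩ := mem_image.1 hx
    rw [mem_range] at hj
    rw [Multiset.mem_toFinset, mem_roots h0, IsRoot.def, eval_mul, eval_map]
    have h2 := congrArg (eval₂ φ (t ^ qq F ^ (j + 1))) h
    have h3 : eval₂ φ (t ^ qq F ^ (j + 1)) (PP (qq F) t n) = 0 := by
      rw [PP, eval₂_finsetProd]
      refine prod_eq_zero (i := n - (j + 1)) (mem_range.2 (by omega)) ?_
      rw [eval₂_sub, eval₂_C, eval₂_X_pow, ← pow_mul, ← pow_add,
        show j + 1 + (n - (j + 1)) = n by omega]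
      exact sub_eq_zero.2 (frp_apply n t)
    have h4 : eval₂ φ (t ^ qq F ^ (j + 1)) (expand k (qq F ^ n) w) =
        φ (w.eval (t ^ qq F ^ (j + 1))) := by
      rw [← eval_map, map_expand, expand_eval, eval_map, ← eval₂_hom]
      congr 1
      exact (frp_apply n _).symm
    rw [eval₂_mul, eval₂_mul, eval₂_pow, h3, zero_pow he, mul_zero, h4, eq_comm, mul_eq_zero,
      map_eq_zero] at h2
    exact mul_eq_zero.2 h2
  have h2 := card_le_card h1
  rw [card_image_of_injective _ (fun i j e => by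
    by_contra hij
    exact ht.tq_ne (i := i + 1) (j := j + 1) (by omega) e), card_range] at h2
  refine h2.trans ((Multiset.toFinset_card_le _).trans ((card_roots' _).trans ?_))
  exact natDegree_mul_le.trans (Nat.add_le_add_right natDegree_map_le _)

lemma height (ht : Tr F t) {a b B : ℕ} {f g : ℕ → k[X]} (hf : ∀ n, f n ≠ 0) (hg : g 0 ≠ 0)
    (df : ∀ n, (f n).natDegree ≤ B) (dg : ∀ n, (g n).natDegree ≤ B)
    (h : ∀ n, f (n + 1) * expand k (qq F) (g n) * (C t - X) ^ a =
      g (n + 1) * expand k (qq F) (f n) * (C t - X) ^ b) :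
    a = b ∧ ∃ c : k, ∀ n, g n = C c * f n := by
  classical
  have hq := two_le_q (F := F)
  have hq0 : ∀ n, 0 < qq F ^ n := fun n => by positivity
  have h1 := iter_rel hq hf h
  have hP := PP_ne (t := t) hq
  have hg' : ∀ n, g n ≠ 0 := fun n e => by
    have := h1 n
    rw [e, zero_mul, zero_mul] at this
    exact mul_ne_zero (mul_ne_zero (hf n) ((expand_ne_zero (hq0 n)).2 hg))
      (pow_ne_zero _ (hP n)) this
  obtain rfl : a = b := by
    by_contra hab
    rcases Nat.lt_or_gt_of_ne hab with e0 | e0 <;> obtain ⟨e, rfl⟩ := Nat.exists_eq_add_of_lt e0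
    · have := root_bound ht (n := 2 * B + 1) (e := e + 1)
        (u := g (2 * B + 1) * expand k (qq F ^ (2 * B + 1)) (f 0)) (by omega) (hf (2 * B + 1)) hg
        (mul_right_cancel₀ (pow_ne_zero a (hP (2 * B + 1))) (by rw [h1]; ring))
      have := df (2 * B + 1)
      have := dg 0
      omega
    · have := root_bound ht (n := 2 * B + 1) (e := e + 1)
        (u := f (2 * B + 1) * expand k (qq F ^ (2 * B + 1)) (g 0)) (by omega) (hg' (2 * B + 1))
        (hf 0) (mul_right_cancel₀ (pow_ne_zero b (hP (2 * B + 1))) (by rw [← h1]; ring))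
      have := dg (2 * B + 1)
      have := df 0
      omega
  refine ⟨rfl, ?_⟩
  replace h1 := fun n => mul_right_cancel₀ (pow_ne_zero a (hP n)) (h1 n)
  obtain ⟨f', g', e1, e2, e3⟩ := extract_gcd (f 0) (g 0)
  have hd : gcd (f 0) (g 0) ≠ 0 := fun h0 => hf 0 (by rw [e1, h0, zero_mul])
  generalize gcd (f 0) (g 0) = d at *
  have h2 : ∀ n, f n * expand k (qq F ^ n) g' = g n * expand k (qq F ^ n) f' := fun n => by
    refine mul_left_cancel₀ ((expand_ne_zero (hq0 n)).2 hd) ?_
    have := h1 n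
    rw [e1, e2, map_mul, map_mul] at this
    linear_combination this
  have h3 : IsCoprime (expand k (qq F ^ B) f') (expand k (qq F ^ B) g') :=
    (isCoprime_expand (hq0 B).ne').2 (gcd_isUnit_iff f' g' |>.1 e3)
  have hB := Nat.lt_pow_self hq (n := B)
  have h4 := natDegree_le_of_dvd (h3.dvd_of_dvd_mul_right ⟨g B, by rw [h2]; ring⟩) (hf B)
  have h5 := natDegree_le_of_dvd (h3.symm.dvd_of_dvd_mul_right ⟨f B, by rw [← h2]; ring⟩) (hg' B)
  rw [natDegree_expand] at h4 h5
  have := df B
  have := dg B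
  obtain ⟨c, rfl⟩ := natDegree_eq_zero.1 (show f'.natDegree = 0 by nlinarith)
  obtain ⟨c', rfl⟩ := natDegree_eq_zero.1 (show g'.natDegree = 0 by nlinarith)
  have hc : c ≠ 0 := fun e => hf 0 (by rw [e1, e, C_0, mul_zero])
  refine ⟨c' / c, fun n => mul_right_cancel₀ (C_ne_zero.2 hc) ?_⟩
  have := h2 n
  rw [expand_C, expand_C] at this
  rw [← this, mul_right_comm, ← C_mul, div_mul_cancel₀ _ hc, mul_comm]

lemma height_exact (ht : Tr F t) {s B : ℕ} (hs : 1 ≤ s) {f g : ℕ → k[X]} {e : k[X]}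
    (hf : ∀ n, f n ≠ 0) (df : ∀ n, (f n).natDegree ≤ B) (dg : ∀ n, (g n).natDegree ≤ B)
    (h : ∀ n, f (n + 1) * expand k (qq F) (g n + f n * e) =
      (C t - X) ^ s * expand k (qq F) (f n) * g (n + 1)) : ∃ b, Rel (qq F) t s b (-e) := by
  have h1 : g 1 * f 0 - g 0 * f 1 = 0 := by
    by_contra h0
    have := (height ht (a := 0) (b := s) (B := B + B) (f := fun n => f n * f (n + 1))
      (g := fun n => g (n + 1) * f n - g n * f (n + 1)) (fun n => mul_ne_zero (hf _) (hf _)) h0
      (fun n => natDegree_mul_le.trans (add_le_add (df _) (df _)))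
      (fun n => (natDegree_sub_le _ _).trans (max_le
        (natDegree_mul_le.trans (add_le_add (dg _) (df _)))
        (natDegree_mul_le.trans (add_le_add (dg _) (df _))))) fun n => by
      have e1 := h n
      have e2 := h (n + 1)
      simp only [map_add, map_mul, map_sub] at e1 e2 ⊢
      linear_combination f (n + 1) * expand k (qq F) (f n) * e2 -
        f (n + 1 + 1) * expand k (qq F) (f (n + 1)) * e1).1
    omega
  obtain ⟨b, -, hb⟩ := rel_of_frac (t := t) (s := s) (g := g 0 + f 0 * e) (e := -e) two_le_q (hf 0)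
    (mul_left_cancel₀ (hf 1) (by
      linear_combination f 0 * h 0 + (C t - X) ^ s * expand k (qq F) (f 0) * h1))
  exact ⟨b, hb⟩

end Pool.Agent.MP_3924c3_nt

end

section

/-! Relations of bounded degree that can be pulled back forever are trivial. -/

open Finset Polynomial

namespace Pool.Agent.MP_3924c3_nt

open Pool.Agent.MP_cbe134_nt.FF

section pull

variable {R S : Type*} [CommRing R] [Fintype S]

/-- pulling a relation back by one level -/
noncomputable def pull (q : ℕ) (t : R) (wt : S → ℕ) (m : S → S → R[X]) (β : S → R[X]) :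
    S → R[X] := fun B => (C t - X) ^ wt B * expand R q (β B + ∑ A, β A * m A B)

lemma sum_pull (q : ℕ) (t y : R) (wt : S → ℕ) (m : S → S → R[X]) (β : S → R[X]) {T T' : S → R}
    (h : ∀ A, T' A = (t - y) ^ wt A * T A + ∑ B, (m A B).eval (y ^ q) * ((t - y) ^ wt B * T B)) :
    ∑ A, (pull q t wt m β A).eval y * T A = ∑ A, (β A).eval (y ^ q) * T' A := by
  simp only [pull, h, eval_mul, eval_pow, eval_sub, eval_C, eval_X, expand_eval, eval_add,
    eval_finsetSum, mul_add, add_mul, sum_add_distrib, mul_sum, sum_mul]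
  congr 1
  · exact sum_congr rfl fun A _ => by ring
  · rw [sum_comm]
    exact sum_congr rfl fun A _ => sum_congr rfl fun B _ => by ring

lemma pull_top {q : ℕ} {t : R} {wt len : S → ℕ} {m : S → S → R[X]} {β : S → R[X]} {r : ℕ}
    (hm : ∀ A B, m A B ≠ 0 → len A = len B + 1) (h : ∀ A, β A ≠ 0 → len A ≤ r) {B : S}
    (hB : r ≤ len B) : pull q t wt m β B = (C t - X) ^ wt B * expand R q (β B) := by
  rw [pull, sum_eq_zero, add_zero]
  intro A _
  by_contra h0
  have := hm A B (right_ne_zero_of_mul h0)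
  have := h A (left_ne_zero_of_mul h0)
  omega

end pull

variable {F k : Type*} [Field F] [Fintype F] [Field k] [Algebra F k] {t : k}
  {S : Type*} [Fintype S] {len wt : S → ℕ} {m : S → S → k[X]}

theorem seq_indep (ht : Tr F t) (N : ℕ → Submodule k[X] (S → k[X])) (D : ℕ)
    (hpull : ∀ n, ∀ β ∈ N n, pull (qq F) t wt m β ∈ N (n + 1))
    (hD : ∀ n, ∀ β ∈ N n, β ≠ 0 → ∃ β' ∈ N n, β' ≠ 0 ∧ (∀ A, β' A ≠ 0 → β A ≠ 0) ∧
      ∀ A, (β' A).natDegree ≤ D)
    (hm : ∀ A B, m A B ≠ 0 → len A = len B + 1)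
    (hr : ∀ A B, len A = 0 → len B = 0 → wt A = wt B → A = B)
    (h0 : ∀ n, ∀ β ∈ N n, ∀ A, len A = 0 → (∀ B, β B ≠ 0 → B = A) → β = 0)
    (hex : ∀ (n w : ℕ) (c : S → k), (∀ A, c A ≠ 0 → len A = n + 1 ∧ wt A = w) →
      (∀ B s, 1 ≤ s → wt B + s = w → ∃ b, Rel (qq F) t s b (∑ A, C (c A) * m A B)) → c = 0)
    (n : ℕ) (β : S → k[X]) (hβ : β ∈ N n) : β = 0 := by
  classical
  have hq := two_le_q (F := F)
  suffices H : ∀ r n, ∀ β ∈ N n, (∀ A, β A ≠ 0 → len A < r) → β = 0 from
    H (univ.sup len + 1) n β hβ fun A _ => Nat.lt_succ_of_le (le_sup (mem_univ A))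
  clear hβ β n
  intro r
  induction r with
  | zero => exact fun n β _ h => funext fun A => by_contra fun e => absurd (h A e) (by omega)
  | succ r ihr =>
  suffices H : ∀ (T : Finset S) n, ∀ β ∈ N n, (∀ A, β A ≠ 0 → len A < r ∨ len A = r ∧ A ∈ T) →
      β = 0 from fun n β hβ h => H univ n β hβ fun A hA => by have := h A hA; simp; omega
  intro T
  induction T using Finset.induction_on with
  | empty => exact fun n β hβ h => ihr n β hβ fun A hA => by simpa using h A hA
  | insert A₀ T hA₀ ih =>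
  intro n β hβ hT
  by_contra hne
  let G : ℕ → (S → k[X]) → Prop := fun i δ =>
    δ ∈ N (n + i) ∧ ∀ A, δ A ≠ 0 → len A < r ∨ len A = r ∧ A ∈ insert A₀ T
  have g0 : ∀ i δ, G i δ → δ A₀ = 0 → δ = 0 := fun i δ h e => ih _ δ h.1 fun A hA => by
    rcases h.2 A hA with h1 | ⟨h1, h2⟩
    · exact Or.inl h1
    · exact Or.inr ⟨h1, (mem_insert.1 h2).resolve_left fun e' => hA (e' ▸ e)⟩
  have hl : len A₀ = r := by
    by_contra e
    refine hne (ih n β hβ fun A hA => (hT A hA).imp_right fun ⟨h1, h2⟩ => ⟨h1, ?_⟩)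
    exact (mem_insert.1 h2).resolve_left fun e' => e (e' ▸ h1)
  have g1 : ∀ i δ, G i δ → ∀ B, r ≤ len B →
      pull (qq F) t wt m δ B = (C t - X) ^ wt B * expand k (qq F) (δ B) :=
    fun i δ h B hB => pull_top hm (fun A hA => by have := h.2 A hA; omega) hB
  have g2 : ∀ i δ, G i δ → G (i + 1) (pull (qq F) t wt m δ) := fun i δ h =>
    ⟨hpull _ _ h.1, fun A hA => by
      by_cases e : len A < r
      · exact Or.inl e
      · rw [g1 i δ h A (by omega)] at hA
        exact h.2 A fun e => hA (by simp [e])⟩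
  have g3 : ∀ i, ∃ δ, G i δ ∧ δ ≠ 0 := fun i => by
    induction i with
    | zero => exact ⟨β, ⟨hβ, hT⟩, hne⟩
    | succ i ihi =>
      obtain ⟨δ, h1, h2⟩ := ihi
      refine ⟨_, g2 i δ h1, fun e => h2 (g0 i δ h1 ?_)⟩
      have := congrFun e A₀
      rw [g1 i δ h1 A₀ hl.ge, Pi.zero_apply, mul_eq_zero, expand_eq_zero (by omega)] at this
      exact this.resolve_left (pow_ne_zero _ (Y_ne t))
  have g4 : ∀ i, ∃ δ, G i δ ∧ δ A₀ ≠ 0 ∧ ∀ A, (δ A).natDegree ≤ D := fun i => by
    obtain ⟨δ, h1, h2⟩ := g3 i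
    obtain ⟨δ', h3, h4, h5, h6⟩ := hD _ δ h1.1 h2
    have : G i δ' := ⟨h3, fun A hA => h1.2 A (h5 A hA)⟩
    exact ⟨δ', this, fun e => h4 (g0 i δ' this e), h6⟩
  choose γ hγ hf hd using g4
  have g5 : ∀ i A, γ (i + 1) A₀ * pull (qq F) t wt m (γ i) A =
      (C t - X) ^ wt A₀ * expand k (qq F) (γ i A₀) * γ (i + 1) A := fun i A => by
    have h1 := g2 i _ (hγ i)
    have := congrFun (g0 (i + 1) (γ (i + 1) A₀ • pull (qq F) t wt m (γ i) -
        pull (qq F) t wt m (γ i) A₀ • γ (i + 1))
      ⟨sub_mem (Submodule.smul_mem _ _ h1.1) (Submodule.smul_mem _ _ (hγ _).1), fun B hB => by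
        by_cases e : γ (i + 1) B = 0
        · exact h1.2 B fun e' => hB (by simp [e, e'])
        · exact (hγ _).2 B e⟩ (by simp [mul_comm])) A
    rw [← g1 i _ (hγ i) A₀ hl.ge]
    simpa [sub_eq_zero] using this
  have g6 : ∀ A, ∃ c : k, (c ≠ 0 → len A = r ∧ wt A = wt A₀) ∧
      (len A = r → ∀ i, γ i A = C c * γ i A₀) := fun A => by
    by_cases e : len A = r
    swap
    · exact ⟨0, by simp, by simp [e]⟩
    have h1 : ∀ i, γ (i + 1) A₀ * expand k (qq F) (γ i A) * (C t - X) ^ wt A =
        γ (i + 1) A * expand k (qq F) (γ i A₀) * (C t - X) ^ wt A₀ := fun i => by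
      have := g5 i A
      rw [g1 i _ (hγ i) A e.ge] at this
      linear_combination this
    by_cases e0 : γ 0 A = 0
    · refine ⟨0, by simp, fun _ i => ?_⟩
      induction i with
      | zero => simp [e0]
      | succ i ihi =>
        have := h1 i
        rw [ihi, C_0, zero_mul, map_zero, mul_zero, zero_mul, eq_comm, mul_eq_zero, mul_eq_zero,
          expand_eq_zero (by omega)] at this
        simpa [hf i, Y_ne t] using this
    · obtain ⟨h2, c, h3⟩ := height ht (f := fun i => γ i A₀) (g := fun i => γ i A) hf e0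
        (fun i => hd i _) (fun i => hd i _) h1
      exact ⟨c, fun _ => ⟨e, h2⟩, fun _ => h3⟩
  choose c hc hc' using g6
  have hc0 : c A₀ ≠ 0 := fun e => hf 0 (by rw [hc' A₀ hl 0, e, C_0, zero_mul])
  rcases r with _ | r
  · refine hf 0 (congrFun (h0 _ _ (hγ 0).1 A₀ hl fun B hB => ?_) A₀)
    have h1 : len B = 0 := by have := (hγ 0).2 B hB; omega
    exact hr _ _ h1 hl (hc B fun e => hB (by rw [hc' B h1 0, e, C_0, zero_mul])).2
  refine hc0 (neg_eq_zero.1 (congrFun (hex r (wt A₀) (-c) (fun A hA => hc A (by simpa using hA))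
    fun B s hs hw => ?_) A₀))
  have h1 : ∑ A, C ((-c) A) * m A B = -∑ A, C (c A) * m A B := by simp
  rw [h1]
  by_cases e : len B = r
  swap
  · refine ⟨0, ?_⟩
    rw [sum_eq_zero fun A _ => by
      by_contra h
      have := hm A B (right_ne_zero_of_mul h)
      have := (hc A (C_ne_zero.1 (left_ne_zero_of_mul h))).1
      omega]
    simp [MP_cbe134_nt.FF.Rel]
  refine height_exact ht hs (f := fun i => γ i A₀) (g := fun i => γ i B) hf (fun i => hd i _)
    (fun i => hd i _) fun i => mul_left_cancel₀ (pow_ne_zero (wt B) (Y_ne t)) ?_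
  have h2 : ∑ A, γ i A * m A B = γ i A₀ * ∑ A, C (c A) * m A B := by
    rw [mul_sum]
    refine sum_congr rfl fun A _ => ?_
    by_cases h : m A B = 0
    · simp [h]
    · rw [hc' A (by rw [hm A B h, e]) i]
      ring
  have := g5 i B
  rw [pull, h2, ← hw, pow_add] at this
  linear_combination this

end Pool.Agent.MP_3924c3_nt

end

section

/-! Relations along an ultrafilter can be chosen of bounded degree. -/

open Finset Polynomial Filter

namespace Pool.Agent.MP_3924c3_nt

section sh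

variable {R : Type*} [CommRing R]

/-- the quotient of the division by `X ^ n` -/
noncomputable def sh (n : ℕ) (p : R[X]) : R[X] := divX^[n] p

lemma coeff_sh (n : ℕ) (p : R[X]) (i : ℕ) : (sh n p).coeff i = p.coeff (i + n) := by
  induction n generalizing i with
  | zero => rfl
  | succ n ih => rw [sh, Function.iterate_succ_apply', coeff_divX, ← sh, ih]; congr 1; omega

lemma sh_add (n : ℕ) (p p' : R[X]) : sh n (p + p') = sh n p + sh n p' := by
  ext i; simp [coeff_sh]

lemma sh_C_mul (n : ℕ) (a : R) (p : R[X]) : sh n (C a * p) = C a * sh n p := by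
  ext i; simp [coeff_sh]

lemma sh_sh (a b : ℕ) (p : R[X]) : sh a (sh b p) = sh (a + b) p := by
  ext i; simp [coeff_sh, add_assoc]

lemma sh_X_pow_mul (n : ℕ) (p : R[X]) : sh n (X ^ n * p) = p := by
  ext i; simp [coeff_sh, coeff_X_pow_mul]

lemma sh_eq_zero {n : ℕ} {p : R[X]} (h : p.natDegree < n) : sh n p = 0 := by
  ext i; rw [coeff_sh, coeff_eq_zero_of_natDegree_lt (by omega), coeff_zero]

lemma sh_succ (n : ℕ) (p : R[X]) : X * sh (n + 1) p = sh n p - C (p.coeff n) := by
  rw [sh, Function.iterate_succ_apply', ← sh, eq_sub_iff_add_eq, ← zero_add n, ← coeff_sh,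
    zero_add, X_mul_divX_add]

lemma sh_X_mul (n : ℕ) (p : R[X]) : ∃ a, sh n (X * p) = X * sh n p + C a := by
  cases n with
  | zero => exact ⟨0, by simp [sh]⟩
  | succ n =>
    refine ⟨p.coeff n, ?_⟩
    rw [sh_succ, sub_add_cancel]
    ext i
    rw [coeff_sh, coeff_sh, ← add_assoc, coeff_X_mul]

lemma natDegree_sh {n m : ℕ} {p : R[X]} (h : p.natDegree ≤ m + n) : (sh n p).natDegree ≤ m :=
  natDegree_le_iff_coeff_eq_zero.2 fun i hi => by
    rw [coeff_sh, coeff_eq_zero_of_natDegree_lt (by omega)]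

end sh

variable {F : Type*} [Field F]

/-- sequences vanishing along a filter -/
def Null (R : Type*) [CommRing R] (U : Filter ℕ) : Submodule R (ℕ → R) where
  carrier := {x | ∀ᶠ J in U, x J = 0}
  add_mem' := fun ha hb => (ha.and hb).mono fun J h => by simp [h.1, h.2]
  zero_mem' := Eventually.of_forall fun _ => rfl
  smul_mem' := fun c x hx => hx.mono fun J h => by simp [h]

lemma mkQ_congr {R : Type*} [CommRing R] {U : Filter ℕ} {x y : ℕ → R} (h : ∀ᶠ J in U, x J = y J) :
    (Null R U).mkQ x = (Null R U).mkQ y :=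
  (Submodule.Quotient.eq _).2 (h.mono fun J e => by simp [e])

theorem bounded [Finite F] {S : Type*} [Fintype S] (U : Ultrafilter ℕ) (Q : ℕ → ℕ)
    (hQ : ∀ J, 1 ≤ Q J) (L : ℕ → S → F[X]) (c : ℕ)
    (hL : ∀ᶠ J in U, ∀ A, (L J A).natDegree ≤ c * Q J) (β : S → F[X][X])
    (hβ : ∀ᶠ J in U, ∑ A, (β A).eval (X ^ Q J) * L J A = 0) (h0 : β ≠ 0) :
    ∃ β' : S → F[X][X], β' ≠ 0 ∧ (∀ᶠ J in U, ∑ A, (β' A).eval (X ^ Q J) * L J A = 0) ∧
      (∀ A, β' A ≠ 0 → β A ≠ 0) ∧ ∀ A, (β' A).natDegree ≤ Fintype.card S * (c + 1) + 1 := by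
  classical
  obtain ⟨A₀, hA₀, hmax⟩ := exists_max_image (univ.filter fun A => β A ≠ 0)
    (fun A => (β A).natDegree) (by
      obtain ⟨A, hA⟩ := Function.ne_iff.1 h0
      exact ⟨A, by simpa using hA⟩)
  replace hA₀ : β A₀ ≠ 0 := by simpa using hA₀
  replace hmax : ∀ A, (β A).natDegree ≤ (β A₀).natDegree := fun A => by
    by_cases e : β A = 0
    · simp [e]
    · exact hmax A (by simpa using e)
  set B := Fintype.card S * (c + 1) + 1 with hB
  by_cases hn : (β A₀).natDegree ≤ B
  · exact ⟨β, h0, hβ, fun _ h => h, fun A => (hmax A).trans hn⟩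
  obtain ⟨n, hn⟩ : ∃ n, (β A₀).natDegree = n + B := ⟨(β A₀).natDegree - B, by omega⟩
  let π := (Null F[X] U).mkQ
  let g : Option (S × Fin (c + 1)) → ℕ → F[X] := fun o =>
    o.elim 1 fun p J => sh (p.2 * Q J) (L J p.1)
  let W := (Submodule.span F[X] (Set.range (π ∘ g))).comap π
  have key : ∀ {x y : ℕ → F[X]}, x ∈ W → (∀ᶠ J in U, y J = x J) → y ∈ W := fun hx h => by
    rwa [Submodule.mem_comap, mkQ_congr h]
  let V₀ : (ℕ → F[X]) → Prop := fun x => ∀ j, (fun J => sh (j * Q J) (x J)) ∈ W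
  have v1 : ∀ x y, V₀ x → V₀ y → V₀ (x + y) := fun x y hx hy j =>
    key (add_mem (hx j) (hy j)) (Eventually.of_forall fun J => sh_add _ _ _)
  have v2 : ∀ (a : F) x, V₀ x → V₀ ((C a : F[X]) • x) := fun a x hx j =>
    key (W.smul_mem (C a) (hx j)) (Eventually.of_forall fun J => sh_C_mul _ _ _)
  have v3 : ∀ x, V₀ x → V₀ ((X : F[X]) • x) := fun x hx j => by
    choose a ha using fun J => sh_X_mul (j * Q J) (x J)
    obtain ⟨b, hb⟩ := (U.map a).eq_pure_of_finite
    have h1 : ∀ᶠ J in U, a J = b := by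
      have : {b} ∈ U.map a := by rw [hb]; simp
      exact this
    have h2 : g none ∈ W := Submodule.subset_span ⟨none, rfl⟩
    exact key (add_mem (W.smul_mem X (hx j)) (W.smul_mem (C b) h2)) (h1.mono fun J e => by
      simp [ha, e, g])
  let V : Submodule F[X] (ℕ → F[X]) :=
    { carrier := V₀
      add_mem' := v1 _ _
      zero_mem' := fun j => key W.zero_mem (Eventually.of_forall fun J => by
        ext; simp [coeff_sh])
      smul_mem' := fun h x hx => by
        induction h using Polynomial.induction_on with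
        | C a => exact v2 a x hx
        | add p p' hp hp' => rw [add_smul]; exact v1 _ _ hp hp'
        | monomial m a ih => rw [pow_succ', mul_left_comm, mul_smul]; exact v3 _ ih }
  have v4 : ∀ A, (fun J => L J A) ∈ V := fun A j => by
    by_cases h : j < c + 1
    · exact Submodule.subset_span ⟨some (A, ⟨j, h⟩), rfl⟩
    · refine key W.zero_mem (hL.mono fun J e => sh_eq_zero ((e A).trans_lt ?_))
      exact Nat.mul_lt_mul_of_pos_right (by omega) (hQ J)
  let ρ : ℕ → ℕ → F[X] := fun a J => ∑ A, (sh a (β A)).eval (X ^ Q J) * L J A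
  have v5 : ∀ a, ρ a ∈ V := fun a => by
    induction a with
    | zero => exact fun j => key (V.zero_mem j) (hβ.mono fun J e => congrArg _ e)
    | succ a ih =>
      intro j
      have h1 := sub_mem ih (V.sum_mem fun A (_ : A ∈ univ) =>
        V.smul_mem ((β A).coeff a) (v4 A)) (j + 1)
      refine key h1 (Eventually.of_forall fun J => ?_)
      rw [← sh_X_pow_mul (Q J) (ρ (a + 1) J), sh_sh, add_mul, one_mul]
      congr 1
      simp only [ρ, Pi.sub_apply, Finset.sum_apply, Pi.smul_apply, smul_eq_mul, mul_sum,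
        ← sum_sub_distrib]
      refine sum_congr rfl fun A _ => ?_
      have := congrArg (eval (X ^ Q J)) (sh_succ a (β A))
      rw [eval_mul, eval_X, eval_sub, eval_C] at this
      rw [← mul_assoc, this, sub_mul]
  have h1 : ¬LinearIndependent F[X] fun i : Fin (B + 1) => π (ρ (n + B - i)) := fun h => by
    have h2 := linearIndependent_le_span_aux' _ h (Set.range (π ∘ g)) (by
      rintro _ ⟨i, rfl⟩
      exact key (v5 (n + B - i) 0) (Eventually.of_forall fun J => by simp [sh]))
    have h3 := Fintype.card_range_le (π ∘ g)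
    simp only [Fintype.card_fin, Fintype.card_option, Fintype.card_prod] at h2 h3
    omega
  obtain ⟨μ, hμ, i₁, hi₁⟩ := Fintype.not_linearIndependent_iff.1 h1
  refine ⟨fun A => ∑ i : Fin (B + 1), C (μ i) * sh (n + B - i) (β A), fun e => ?_, ?_,
    fun A h e => h ?_, fun A => natDegree_sum_le_of_forall_le _ _ fun i _ =>
      (natDegree_C_mul_le _ _).trans (natDegree_sh ?_)⟩
  · obtain ⟨i₀, hi₀, hm⟩ := exists_max_image (univ.filter fun i => μ i ≠ 0) id ⟨i₁, by simpa⟩
    have h2 := congrArg (coeff · i₀) (congrFun e A₀)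
    simp only [finsetSum_coeff, coeff_C_mul, coeff_sh, Pi.zero_apply, coeff_zero] at h2
    rw [sum_eq_single i₀, show (i₀ : ℕ) + (n + B - i₀) = (β A₀).natDegree by omega] at h2
    · exact mul_ne_zero (by simpa using hi₀) (leadingCoeff_ne_zero.2 hA₀) h2
    · intro i _ hi
      by_cases h3 : μ i = 0
      · simp [h3]
      · have h4 : i < i₀ := lt_of_le_of_ne (hm i (by simpa using h3)) hi
        rw [coeff_eq_zero_of_natDegree_lt (by have : (i : ℕ) < i₀ := h4; omega), mul_zero]
    · simp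
  · simp only [← map_smul, ← map_sum] at hμ
    refine Eventually.mono ((Submodule.Quotient.mk_eq_zero _).1 hμ) fun J e => ?_
    simp only [ρ, Finset.sum_apply, Pi.smul_apply, smul_eq_mul, mul_sum] at e
    rw [← e, sum_comm]
    simp only [eval_finsetSum, eval_mul, eval_C, sum_mul, mul_assoc]
  · refine sum_eq_zero fun i _ => ?_
    rw [e, show sh (n + B - i) (0 : F[X][X]) = 0 by ext; simp [coeff_sh], mul_zero]
  · have := hmax A
    omega

end Pool.Agent.MP_3924c3_nt

end

section

/-! Linear independence modulo almost all primes. -/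

open Finset Polynomial Filter

namespace Pool.Agent.MP_3924c3_nt

open Pool.Agent.MP_cbe134_nt.FF

variable {F k : Type*} [Field F] [Fintype F] [Field k] [Algebra F k] {t : k}

omit [Fintype F] in
lemma dvd_of_sqfree {f g : F[X]} (hf : Squarefree f)
    (h : ∀ P : F[X], P.Monic → Irreducible P → P ∣ f → P ∣ g) : f ∣ g := by
  classical
  obtain ⟨f', e⟩ := gcd_dvd_left f g
  by_cases hu : IsUnit f'
  · rw [e, hu.mul_right_dvd]
    exact gcd_dvd_right _ _
  obtain ⟨P, h1, h2, h3⟩ := exists_monic_irreducible_factor f' hu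
  have h4 : P ∣ f := e ▸ h3.mul_left _
  exact absurd (hf P (e ▸ mul_dvd_mul (dvd_gcd h4 (h P h1 h2 h4)) h3)) h2.not_isUnit

lemma bracket_dvd {D : ℕ} (hD : D.Prime) {a : F[X]}
    (h : ∀ P : F[X], P.Monic → Irreducible P → P.natDegree = D → P ∣ a) :
    X ^ qq F ^ D - X ∣ (X ^ qq F - X) * a := by
  obtain ⟨p, hp⟩ := CharP.exists F
  obtain ⟨n, -, hn⟩ := FiniteField.card F p
  refine dvd_of_sqfree (galois_poly_separable p _ (dvd_pow (by
    rw [qq, hn]; exact dvd_pow_self _ n.ne_zero) hD.ne_zero)).squarefree fun P h1 h2 h3 => ?_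
  rw [qq, ← Nat.card_eq_fintype_card] at h3 ⊢
  rcases (Nat.dvd_prime hD).1 (h2.natDegree_dvd_of_dvd_X_pow_card_pow_sub_X h3) with e | e
  · simpa using (h2.natDegree_dvd_iff_dvd_X_pow_card_pow_sub_X.1 e.dvd).mul_right a
  · exact (h P h1 h2 e).mul_left _

omit [Fintype F] in
lemma deg_eval (u : F[X][X]) : ∃ δ, ∀ Q, (u.eval (X ^ Q)).natDegree ≤ δ + u.natDegree * Q := by
  refine ⟨(range (u.natDegree + 1)).sup fun i => (u.coeff i).natDegree, fun Q => ?_⟩
  rw [eval_eq_sum_range]
  refine natDegree_sum_le_of_forall_le _ _ fun i hi => natDegree_mul_le.trans (add_le_add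
    (le_sup (f := fun i => (u.coeff i).natDegree) hi) ?_)
  rw [← pow_mul, natDegree_X_pow, mul_comm]
  exact Nat.mul_le_mul_right _ (Nat.lt_succ_iff.1 (mem_range.1 hi))

omit [Fintype F] in
lemma eq_zero_of_digits {N : ℕ} {u : F[X][X]} (hu : u.natDegree < N)
    (h : u.eval₂ (expand F N).toRingHom X = 0) : u = 0 := by
  ext a j
  by_cases ha : a < N
  swap
  · rw [coeff_eq_zero_of_natDegree_lt (p := u) (by omega), coeff_zero, coeff_zero, coeff_zero]
  have h1 := congrArg (coeff · (N * j + a)) h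
  simp only [eval₂_eq_sum_range' _ hu, finsetSum_coeff, coeff_mul_X_pow', coeff_zero] at h1 ⊢
  rw [sum_eq_single a, if_pos (by omega), Nat.add_sub_cancel] at h1
  · exact (coeff_expand_mul' (by omega) _ _).symm.trans h1
  · intro i hi hia
    rw [mem_range] at hi
    split_ifs with h2
    · refine (coeff_expand (by omega) _ _).trans (if_neg fun h3 => hia ?_)
      have := (Nat.modEq_iff_dvd' h2).2 h3
      rwa [Nat.ModEq, Nat.mul_add_mod, Nat.mod_eq_of_lt hi, Nat.mod_eq_of_lt ha] at this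
    · rfl
  · simp [ha]

omit [Fintype F] in
lemma eval_mp (u : F[X][X]) (a : F[X]) : (mp F t u).eval (aeval t a) = aeval t (u.eval a) := by
  rw [eval_map]
  exact eval₂_hom (aeval t : F[X] →ₐ[F] k).toRingHom a

omit [Fintype F] in
lemma clear_family (hg : Gen F t) {S : Type*} [Fintype S] (β : S → k[X]) :
    ∃ a : k, a ≠ 0 ∧ ∃ γ : S → F[X][X], ∀ A, mp F t (γ A) = a • β A := by
  classical
  choose a ha hd v hv using fun A => hg.clear (β A)
  choose d hd using hd
  refine ⟨∏ A, a A, prod_ne_zero_iff.2 fun A _ => ha A,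
    fun A => C (∏ B ∈ univ.erase A, d B) * v A, fun A => ?_⟩
  rw [← prod_erase_mul _ _ (mem_univ A), mul_smul, ← hv, smul_eq_C_mul]
  simp [mp, hd, Polynomial.map_prod]

variable {S : Type*} [Fintype S] {len wt : S → ℕ} {m : S → S → F[X][X]} {T : ℕ → S → F[X]} {c : ℕ}

variable (t len wt m T c) in
/-- a triangular system of polynomial sequences -/
structure Sys : Prop where
  step : ∀ d A, T (d + 1) A = (X - X ^ qq F ^ (d + 1)) ^ wt A * T d A +
    ∑ B, (m A B).eval ((X ^ qq F ^ (d + 1)) ^ qq F) * ((X - X ^ qq F ^ (d + 1)) ^ wt B * T d B)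
  deg : ∀ d A, (T d A).natDegree ≤ c * qq F ^ (d + 1)
  hm : ∀ A B, m A B ≠ 0 → len A = len B + 1
  hr : ∀ A B, len A = 0 → len B = 0 → wt A = wt B → A = B
  h0 : ∀ d A, len A = 0 → T d A ≠ 0
  hex : ∀ (n w : ℕ) (c : S → k), (∀ A, c A ≠ 0 → len A = n + 1 ∧ wt A = w) →
    (∀ B s, 1 ≤ s → wt B + s = w → ∃ b, Rel (qq F) t s b (∑ A, C (c A) * mp F t (m A B))) → c = 0

theorem Sys.indep (H : Sys t len wt m T c) (ht : Tr F t) (hg : Gen F t) (U : Ultrafilter ℕ)
    (hU : (U : Filter ℕ) ≤ atTop) (β : S → F[X][X])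
    (hβ : ∀ᶠ d in U, ∑ A, (β A).eval (X ^ qq F ^ (d + 1)) * T d A = 0) : β = 0 := by
  classical
  have hq := two_le_q (F := F)
  have hinj : Function.Injective (mp F t) := map_injective _ ht
  have e0 : mp F t 0 = 0 := Polynomial.map_zero _
  let N : ℕ → Submodule k[X] (S → k[X]) := fun n =>
    { carrier := {β | ∀ᶠ d in U,
        ∑ A, (β A).eval (t ^ qq F ^ (d - n + 1)) * aeval t (T (d - n) A) = 0}
      add_mem' := fun ha hb => (ha.and hb).mono fun d h => by
        simp [add_mul, sum_add_distrib, h.1, h.2]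
      zero_mem' := Eventually.of_forall fun _ => by simp
      smul_mem' := fun r x hx => hx.mono fun d h => by
        simp [mul_assoc, ← mul_sum, h] }
  have hN : ∀ n (γ : S → F[X][X]), (fun A => mp F t (γ A)) ∈ N n ↔
      ∀ᶠ d in U, ∑ A, (γ A).eval (X ^ qq F ^ (d - n + 1)) * T (d - n) A = 0 := fun n γ => by
    refine eventually_congr (Eventually.of_forall fun d => ?_)
    rw [← map_eq_zero_iff _ ht, map_sum]
    simp only [map_mul, ← eval_mp, aeval_X_pow]
  have h := seq_indep ht (len := len) (wt := wt) (m := fun A B => mp F t (m A B)) N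
    (Fintype.card S * (c + 1) + 1) ?_ ?_ (fun A B h => H.hm A B fun e => h (by rw [e, e0])) H.hr
    ?_ H.hex 0 _ ((hN 0 β).2 hβ)
  · exact funext fun A => hinj ((congrFun h A).trans e0.symm)
  · intro n γ hγ
    refine (((eventually_gt_atTop n).filter_mono hU).and hγ).mono fun d ⟨h1, h2⟩ => ?_
    rw [show d - n = d - (n + 1) + 1 by omega, pow_succ, pow_mul] at h2
    rw [sum_pull (T := fun A => aeval t (T (d - (n + 1)) A))
      (T' := fun A => aeval t (T (d - (n + 1) + 1) A)), h2]
    intro A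
    rw [H.step, map_add, map_sum]
    simp only [map_mul, ← eval_mp, map_pow, map_sub, aeval_X]
  · intro n γ hγ h0
    obtain ⟨a, ha, δ, hδ⟩ := clear_family hg γ
    have h1 : (fun A => mp F t (δ A)) = C a • γ := funext fun A => by simp [hδ, smul_eq_C_mul]
    obtain ⟨δ', h2, h3, h4, h5⟩ := bounded U (fun d => qq F ^ (d - n + 1))
      (fun d => Nat.one_le_pow _ _ (by omega)) (fun d => T (d - n)) c
      (Eventually.of_forall fun d => H.deg _) δ ((hN n δ).1 (h1 ▸ (N n).smul_mem _ hγ))
      (fun e => h0 (funext fun A => by simpa [e, e0, ha] using (hδ A).symm))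
    refine ⟨_, (hN n δ').2 h3, fun e => h2 (funext fun A => hinj ((congrFun e A).trans e0.symm)),
      fun A hA e => h4 A (fun e' => hA (by rw [e', e0])) (hinj (by rw [hδ, e, e0, smul_zero])),
      fun A => natDegree_map_le.trans (h5 A)⟩
  · intro n γ hγ A hA h1
    have h2 : γ A = 0 := by
      refine eq_zero_of_infinite_isRoot _ (Set.infinite_of_injOn_mapsTo
        (f := fun d => t ^ qq F ^ (d - n + 1)) (s := {d | n ≤ d ∧ ∑ A, (γ A).eval
          (t ^ qq F ^ (d - n + 1)) * aeval t (T (d - n) A) = 0}) (fun i hi j hj e => ?_)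
        (fun d hd => ?_) (frequently_cofinite_iff_infinite.1 ?_))
      · by_contra hij
        exact ht.tq_ne (by have := hi.1; have := hj.1; omega) e
      · have h3 := hd.2
        rw [sum_eq_single A (fun B _ hB => by
          rw [not_not.1 (mt (h1 B) hB), eval_zero, zero_mul]) (by simp)] at h3
        exact (mul_eq_zero.1 h3).resolve_right (ht.aeval_ne (H.h0 _ A hA))
      · rw [Nat.cofinite_eq_atTop]
        exact (((eventually_ge_atTop n).filter_mono hU).and hγ).frequently.filter_mono hU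
    exact funext fun B => by_contra fun e => e (h1 B e ▸ h2)

omit [Fintype F] in
lemma pull_ne {q : ℕ} {D : Type*} [CommRing D] [IsDomain D] (φ φ' : F[X][X] →+* D)
    (hm : ∀ A B, m A B ≠ 0 → len A = len B + 1) (h1 : φ (C X - X) ≠ 0)
    (h2 : ∀ u, φ (expand F[X] q u) = φ' u) {β : S → F[X][X]} (h : ∃ A, φ' (β A) ≠ 0) :
    ∃ A, φ (pull q X wt m β A) ≠ 0 := by
  classical
  obtain ⟨B, hB, hmax⟩ := exists_max_image (univ.filter fun A => φ' (β A) ≠ 0) len
    (h.imp fun A hA => by simpa using hA)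
  refine ⟨B, ?_⟩
  rw [pull, map_mul, map_pow, h2, map_add, map_sum, sum_eq_zero, add_zero]
  · exact mul_ne_zero (pow_ne_zero _ h1) (by simpa using hB)
  · intro A _
    rw [map_mul]
    by_contra h0
    have := hm A B fun e => h0 (by simp [e])
    have := hmax A (by simpa using left_ne_zero_of_mul h0)
    omega

lemma Sys.iter (H : Sys t len wt m T c) (n : ℕ) (β : S → F[X][X]) (d : ℕ) :
    ∑ A, ((pull (qq F) X wt m)^[n] β A).eval (X ^ qq F ^ (d + 1)) * T d A =
      ∑ A, (β A).eval (X ^ qq F ^ (d + n + 1)) * T (d + n) A := by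
  induction n generalizing d with
  | zero => rfl
  | succ n ih =>
    rw [Function.iterate_succ_apply', sum_pull _ _ _ _ _ _ (H.step d), ← pow_mul, ← pow_succ, ih,
      show d + 1 + n = d + (n + 1) by omega]

theorem Sys.indep_mod (H : Sys t len wt m T c) (ht : Tr F t) (hg : Gen F t) (a : S → F[X])
    (D₀ : ℕ) (ha : ∀ d, D₀ ≤ d → ∀ P : F[X], P.Monic → Irreducible P → P.natDegree = d + 1 →
      P ∣ ∑ A, a A * T d A) : a = 0 := by
  classical
  have hq := two_le_q (F := F)
  by_contra h0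
  obtain ⟨n, hn⟩ : ∃ n, n = Fintype.card (Option S) * (c + 1) + 1 := ⟨_, rfl⟩
  have hN := Nat.lt_pow_self hq (n := n)
  let G := (pull (qq F) X wt m)^[n] fun A => C ((X ^ qq F - X) * a A)
  let ψ : ℕ → F[X][X] →+* F[X] := fun j =>
    eval₂RingHom (expand F (qq F ^ n)).toRingHom (X ^ qq F ^ j)
  have hX : ∀ i j, i ≠ j → (X ^ qq F ^ i - X ^ qq F ^ j : F[X]) ≠ 0 := fun i j hij e =>
    hij (Nat.pow_right_injective hq (by simpa using congrArg natDegree (sub_eq_zero.1 e)))
  have h1 : ∀ i j, i + j = n → ∃ A, ψ j ((pull (qq F) X wt m)^[i]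
      (fun A => C ((X ^ qq F - X) * a A)) A) ≠ 0 := fun i => by
    induction i with
    | zero =>
      intro j _
      obtain ⟨A, hA⟩ := Function.ne_iff.1 h0
      refine ⟨A, fun e => mul_ne_zero (by simpa using hX 1 0 one_ne_zero) hA
        ((expand_eq_zero (by omega : 0 < qq F ^ n)).1 ?_)⟩
      exact (eval₂_C _ _).symm.trans e
    | succ i ih =>
      intro j hj
      rw [Function.iterate_succ_apply']
      refine pull_ne (ψ j) (ψ (j + 1)) H.hm ?_ (fun u => ?_) (ih _ (by omega))
      · simpa [ψ] using hX n j (by omega)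
      · simp only [ψ, coe_eval₂RingHom]
        rw [← eval_map, map_expand, expand_eval, eval_map, ← pow_mul, ← pow_succ]
  obtain ⟨A₀, hA₀⟩ := h1 n 0 rfl
  let M : F[X][X] := X ^ qq F ^ n - C X
  have hM : M.Monic := monic_X_pow_sub_C _ (by omega)
  have hMd : M.natDegree = qq F ^ n := natDegree_X_pow_sub_C
  have hψ : ψ 0 M = 0 := by simp [ψ, M]
  let Hh : S → F[X][X] := fun A => G A %ₘ M
  have hH : ∀ A, Hh A = G A - M * (G A /ₘ M) := fun A => modByMonic_eq_sub_mul_div _ _
  have hMe : ∀ d, M.eval (X ^ qq F ^ (d + 1)) = X ^ qq F ^ (d + n + 1) - X := fun d => by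
    simp only [M, eval_sub, eval_pow, eval_X, eval_C, ← pow_mul, ← pow_add]
    rw [add_right_comm]
  have h2 : ∀ d, ∃ r : F[X], D₀ ≤ d → (d + n + 1).Prime →
      ∑ A, (Hh A).eval (X ^ qq F ^ (d + 1)) * T d A = M.eval (X ^ qq F ^ (d + 1)) * r := fun d => by
    by_cases h : D₀ ≤ d ∧ (d + n + 1).Prime
    swap
    · exact ⟨0, fun h1 h2 => absurd ⟨h1, h2⟩ h⟩
    suffices h3 : M.eval (X ^ qq F ^ (d + 1)) ∣ ∑ A, (Hh A).eval (X ^ qq F ^ (d + 1)) * T d A from
      h3.imp fun r hr _ _ => hr
    simp only [hH, eval_sub, eval_mul, sub_mul, sum_sub_distrib, mul_assoc, ← mul_sum]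
    refine dvd_sub ?_ (dvd_mul_right _ _)
    rw [H.iter, hMe]
    simp only [eval_C, mul_assoc, ← mul_sum]
    exact bracket_dvd h.2 (ha _ (by omega))
  choose R hR using h2
  choose δ hδ using fun A => deg_eval (Hh A)
  have h3 : ∃ᶠ d in atTop, (d + n + 1).Prime := frequently_atTop.2 fun d => by
    obtain ⟨p, h1, h2⟩ := Nat.exists_infinite_primes (d + n + 1)
    exact ⟨p - n - 1, by omega, by rwa [show p - n - 1 + n + 1 = p by omega]⟩
  obtain ⟨U, hU⟩ := Ultrafilter.exists_le _ (h := frequently_iff_neBot.1 h3)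
  have hU1 : (U : Filter ℕ) ≤ atTop := hU.trans inf_le_left
  have h4 : ∀ᶠ d in U, ∑ A, (Hh A).eval (X ^ qq F ^ (d + 1)) * T d A =
      M.eval (X ^ qq F ^ (d + 1)) * R d :=
    (((eventually_ge_atTop D₀).filter_mono hU1).and
      (le_principal_iff.1 (hU.trans inf_le_right))).mono fun d h => hR d h.1 h.2
  have hdeg : ∀ᶠ d in U, ∀ o : Option S, (o.elim (R d) (T d)).natDegree ≤ c * qq F ^ (d + 1) := by
    refine (((eventually_ge_atTop (univ.sup δ)).filter_mono hU1).and h4).mono fun d h o => ?_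
    cases o with
    | some A => exact H.deg d A
    | none =>
      by_cases e : R d = 0
      · simp [e]
      have h8 : (M.eval (X ^ qq F ^ (d + 1))).natDegree = qq F ^ n * qq F ^ (d + 1) := by
        rw [hMe, FiniteField.X_pow_card_pow_sub_X_natDegree_eq _ (by omega) hq]
        ring
      have h9 : (∑ A, (Hh A).eval (X ^ qq F ^ (d + 1)) * T d A).natDegree ≤
          qq F ^ n * qq F ^ (d + 1) + c * qq F ^ (d + 1) :=
        natDegree_sum_le_of_forall_le _ _ fun A _ => natDegree_mul_le.trans (add_le_add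
          ((hδ A _).trans (by
            have e1 : (Hh A).natDegree < qq F ^ n := hMd ▸ natDegree_modByMonic_lt _ hM
              (fun e => by rw [e, natDegree_one] at hMd; omega)
            have e2 := (le_sup (f := δ) (mem_univ A)).trans h.1
            have e3 := Nat.lt_pow_self hq (n := d + 1)
            have e4 := Nat.mul_le_mul_right (qq F ^ (d + 1)) (Nat.succ_le_of_lt e1)
            rw [Nat.succ_mul] at e4
            omega)) (H.deg d A))
      rw [h.2, natDegree_mul (fun e' => by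
        rw [e', natDegree_zero] at h8
        exact absurd h8 (by positivity)) e, h8] at h9
      exact Nat.le_of_add_le_add_left h9
  obtain ⟨β, h5, h6, -, h7⟩ := bounded U (fun d => qq F ^ (d + 1))
    (fun d => Nat.one_le_pow _ _ (by omega)) (fun d (o : Option S) => o.elim (R d) (T d)) c hdeg
    (fun o => o.elim (-M) Hh) (h4.mono fun d h => by simp [h])
    (fun e => hM.ne_zero (by simpa using congrFun e none))
  simp only [Fintype.sum_option, Option.elim] at h6
  have h8 : β none ≠ 0 := fun e => h5 (funext fun o => by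
    cases o with
    | none => exact e
    | some A => exact congrFun (H.indep ht hg U hU1 (fun A => β (some A))
        (h6.mono fun d h => by simpa [e] using h)) A)
  have h9 := congrArg (ψ 0) (congrFun (H.indep ht hg U hU1
    (fun A => β none * Hh A + M * β (some A)) ((h4.and h6).mono fun d h => by
      simp only [eval_add, eval_mul, add_mul, sum_add_distrib, mul_assoc, ← mul_sum, h.1]
      linear_combination M.eval (X ^ qq F ^ (d + 1)) * h.2)) A₀)
  simp only [hH, map_add, map_mul, map_sub, hψ, zero_mul, sub_zero, add_zero, Pi.zero_apply,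
    map_zero, mul_eq_zero] at h9
  refine h8 (eq_zero_of_digits (N := qq F ^ n) ((h7 none).trans_lt (hn ▸ hN)) ?_)
  simpa [ψ] using h9.resolve_right hA₀

end Pool.Agent.MP_3924c3_nt

end
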