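import Pool.Agent.Mg.F3924c3.G73090f

/-! An explicit basis of the span of the finite multiple zeta values. -/

open Finset Polynomial Module

namespace Pool.Agent.MP_3924c3_nt

open Pool.Agent.MP_cbe134_nt.FF

variable {F : Type*} [Field F] [Fintype F]

omit [Fintype F] in
lemma Red_smul {y : ℕ → RatFunc F} (c : RatFunc F) (h : (y, 0) ∈ Red F) : (c • y, 0) ∈ Red F := by
  have := (Red F).smul_mem h c
  rwa [Prod.smul_mk, Algebra.smul_def c (0 : FA F), mul_zero] at this

lemma Red_Li : (Li F RatFunc.X [qq F - 1], 0) ∈ Red F := by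
  have hq := two_le_q (F := F)
  have h0 : (RatFunc.X - RatFunc.X ^ qq F : RatFunc F) ≠ 0 := by
    simpa using sub_ne_zero.2 ((tr_X (F := F)).tq_ne zero_ne_one)
  obtain ⟨η, hη⟩ := Red_eta (F := F)
  have h1 := Red_mul (sub_mem ((Red F).algebraMap_mem RatFunc.X) Red_frob :
    (_ - _, _ - _) ∈ Red F) (pow_mem hη (qq F - 1) : (_ ^ (qq F - 1), η ^ (qq F - 1)) ∈ Red F)
  rw [Prod.algebraMap_apply, sub_self, zero_mul] at h1
  refine Red_congr (Red_smul (RatFunc.X - RatFunc.X ^ qq F)⁻¹ h1) fun d => ?_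
  have h2 := congrFun (letK_Z (tr_X (F := F))) (d + 1)
  rw [letK_succ tr_X (β := C RatFunc.X - X) (by
    rw [expand_Z, ← pow_succ, Nat.sub_add_cancel (by omega)]), Pi.smul_apply, smul_eq_mul,
    ← inv_mul_eq_iff_eq_mul₀ h0] at h2
  simp [← h2]

lemma ZA_eq_BS (w : ℕ) :
    ZA F w = Submodule.span (RatFunc F) (fmzv F '' {s ∈ BS (qq F) | s.sum = w}) := by
  have hq := two_le_q (F := F)
  refine le_antisymm (Submodule.span_le.2 ?_) (Submodule.span_mono ?_)
  swap
  · rintro _ ⟨s, ⟨h1, h2⟩, rfl⟩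
    exact ⟨⟨s, fun {a} ha => (h1.1 a ha).1, h2⟩, rfl⟩
  rintro _ ⟨c, rfl⟩
  suffices h : ∃ α ∈ Submodule.span (RatFunc F) (fmzv F '' {s ∈ BS (qq F) | s.sum = w}),
      (Wlt (SS F RatFunc.X) c.blocks, α) ∈ Red F by
    obtain ⟨α, h1, h2⟩ := h
    rwa [Red_unique h2 (Red_fmzv _)] at h1
  refine lift_span ?_ (Wlt_mem_Lw tr_X fun a ha => c.blocks_pos ha)
  rintro _ ⟨s, h1, h2, rfl⟩
  let v := (idealX F).valuation (RatFunc F)
  have hv : v (RatFunc.X - RatFunc.X ^ qq F) < 1 := by
    have := (idealX F).valuation_lt_one_iff_mem (K := RatFunc F) (X - X ^ qq F)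
    simpa using this.2 (Ideal.mem_span_singleton.2 (dvd_sub dvd_rfl (dvd_pow_self _ (by omega))))
  let N : Submodule v.valuationSubring (ℕ → RatFunc F) :=
    { carrier := {y | (y, 0) ∈ Red F}
      add_mem' := fun h h' => by simpa using (Red F).add_mem h h'
      zero_mem' := zero_mem (Red F)
      smul_mem' := fun c _ h => Red_smul c.1 h }
  obtain ⟨b, hb, κ, hκ, e⟩ := Submodule.mem_sup.1 (Lw_le_Bw (R := v.valuationSubring)
    (p := ⟨_, hv.le⟩) (N := N) tr_X rfl (v.mem_maximalIdeal_iff.2 hv)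
    (IsLocalRing.jacobson_eq_maximalIdeal _ bot_ne_top).ge (fun u f hf => by
      have hf' := Submodule.span_le_restrictScalars _ (RatFunc F) _ hf
      obtain ⟨α, -, hα⟩ := lift_span (W := ⊤) (hx := hf') (by
        rintro _ ⟨s, h1, -, rfl⟩
        exact (lift_Slt (Li_mem_Slt tr_X h1)).imp fun α h => ⟨trivial, h.2⟩)
      have := Red_mul Red_Li hα
      rwa [zero_mul] at this) _ (Li_mem h1))
  have hb' := Submodule.span_le_restrictScalars _ (RatFunc F) _ hb
  obtain ⟨α, h3, h4⟩ := lift_span (hx := hb')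
    (W := Submodule.span (RatFunc F) (fmzv F '' {s ∈ BS (qq F) | s.sum = w})) (by
      rintro _ ⟨s', ⟨h3, h4, h5⟩, h6, rfl⟩
      exact ⟨_, Submodule.subset_span ⟨s', ⟨⟨h3.1, h4, h3.2, h5⟩, by rw [h6, h2, c.blocks_sum]⟩,
        rfl⟩, Li_eq (tr_X (F := F)) h3.1 ▸ Red_fmzv s'⟩)
  refine ⟨α, h3, ?_⟩
  have := add_mem h4 (show (κ, 0) ∈ Red F from hκ)
  rwa [Prod.mk_add_mk, e, add_zero] at this

/-- a parametrisation of the basis words -/
def par (q : ℕ) : Unit ⊕ Icc 1 (q - 2) ⊕ Icc 1 (q - 1) × List (Icc 1 q) × Icc 1 (q - 1) → List ℕ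
  | .inl _ => []
  | .inr (.inl a) => [a]
  | .inr (.inr (a, l, b)) => a :: (l.map Subtype.val ++ [b.1])

lemma range_par {q : ℕ} (hq : 2 ≤ q) : Set.range (par q) = BS q := by
  ext s
  constructor
  · rintro ⟨_ | a | ⟨a, l, b⟩, rfl⟩
    · simp [par, BS]
    · have := mem_Icc.1 a.2
      simp only [par, BS, Set.mem_ofPred_eq, List.mem_singleton, forall_eq, List.head?_cons,
        List.getLast?_singleton, ne_eq, Option.some.injEq, List.cons.injEq, and_true]
      omega
    · have := mem_Icc.1 a.2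
      have := mem_Icc.1 b.2
      refine ⟨fun c hc => ?_, by simp [par]; omega, by
        rw [par, ← List.cons_append, List.getLast?_concat]; simp; omega, by simp [par]⟩
      simp only [par, List.mem_cons, List.mem_append, List.mem_map, List.not_mem_nil,
        or_false] at hc
      rcases hc with rfl | ⟨x, -, rfl⟩ | rfl
      · omega
      · exact mem_Icc.1 x.2
      · omega
  · rintro ⟨h1, h2, h3, h4⟩
    rcases s with _ | ⟨a, s⟩
    · exact ⟨.inl (), rfl⟩
    have ha := h1 a (by simp)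
    have ha' : a ≠ q := by simpa using h2
    rcases s.eq_nil_or_concat' with rfl | ⟨l, b, rfl⟩
    · have : a ≠ q - 1 := by simpa using h4
      exact ⟨.inr (.inl ⟨a, mem_Icc.2 (by omega)⟩), rfl⟩
    have hb := h1 b (by simp)
    have hb' : b ≠ q := by
      rw [← List.cons_append, List.getLast?_concat] at h3
      simpa using h3
    exact ⟨.inr (.inr (⟨a, mem_Icc.2 (by omega)⟩, l.attachWith _ fun c hc =>
      mem_Icc.2 (h1 c (by simp [hc])), ⟨b, mem_Icc.2 (by omega)⟩)), by simp [par]⟩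

lemma cn_val (T : Finset ℕ) :
    cn (Subtype.val : T → ℕ) = ∑ i ∈ T, (PowerSeries.X : PowerSeries ℤ) ^ i := by
  ext n
  simp only [coeff_cn, map_sum, PowerSeries.coeff_X_pow, sum_ite_eq]
  split_ifs with h
  · exact_mod_cast Nat.card_eq_one_iff_exists.2 ⟨⟨⟨n, h⟩, rfl⟩, fun y : {x : T // x.1 = n} =>
      Subtype.ext (Subtype.ext y.2)⟩
  · have : IsEmpty {x : T // x.1 = n} := ⟨fun x => h (x.2 ▸ x.1.2)⟩
    simp

lemma finFib_list (q : ℕ) : FinFib fun l : List (Icc 1 q) => (l.map Subtype.val).sum :=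
  finFib_of_le fun w => (List.finite_length_le _ w).subset fun l hl => by
    have := length_le_sum (s := l.map Subtype.val) fun a ha => by
      obtain ⟨x, -, rfl⟩ := List.mem_map.1 ha
      exact (mem_Icc.1 x.2).1
    rw [List.length_map] at this
    exact this.trans hl

lemma FinFib.finite_le {A : Type*} {f : A → ℕ} (h : FinFib f) (n : ℕ) : {x | f x ≤ n}.Finite :=
  ((Set.finite_Iic n).biUnion (t := fun m => {x | f x = m}) fun m _ => h m).subset
    fun _ hx => Set.mem_biUnion hx rfl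

lemma FinFib.prod {A B : Type*} {f : A → ℕ} {g : B → ℕ} (hf : FinFib f) (hg : FinFib g) :
    FinFib fun z : A × B => f z.1 + g z.2 := finFib_of_le fun n =>
  ((hf.finite_le n).prod (hg.finite_le n)).subset fun _ h =>
    ⟨(Nat.le_add_right _ _).trans h, (Nat.le_add_left _ _).trans h⟩

lemma FinFib.sum {A B : Type*} {f : A ⊕ B → ℕ} (hf : FinFib fun a => f (.inl a))
    (hg : FinFib fun b => f (.inr b)) : FinFib f := fun n => by
  have := hf n
  have := hg n
  exact Finite.of_equiv _ Equiv.subtypeSum.symm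

lemma par_series {q : ℕ} (hq : 2 ≤ q) : (FinFib fun x => (par q x).sum) ∧
    cn (fun x => (par q x).sum) * (1 - ∑ i ∈ Icc 1 q, PowerSeries.X ^ i) =
      1 - PowerSeries.X ^ (q - 1) := by
  have h0 : ∀ T : Finset ℕ, FinFib (Subtype.val : T → ℕ) := fun T n => inferInstance
  have e : (fun z => (par q (.inr (.inr z))).sum) = fun z =>
      z.1.1 + ((z.2.1.map Subtype.val).sum + z.2.2.1) := funext fun z => by simp [par]
  have h1 : FinFib fun z => (par q (.inr (.inr z))).sum :=
    e ▸ (h0 _).prod ((finFib_list q).prod (h0 _))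
  have h2 : FinFib fun z => (par q (.inr z)).sum := .sum (fun n => inferInstance) h1
  have h3 : FinFib fun z => (par q z).sum := .sum (fun n => inferInstance) h2
  refine ⟨h3, ?_⟩
  have h4 := cn_list (h0 _) (finFib_list q)
  rw [cn_sum h3, cn_sum h2, e, cn_prod (h0 _) ((finFib_list q).prod (h0 _)),
    cn_prod (finFib_list q) (h0 _), show (fun a => (par q (.inr (.inl a))).sum) = Subtype.val from
      funext fun a => by simp [par], show (fun a => (par q (.inl a)).sum) = fun _ => 0 from rfl,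
    cn_unit]
  simp only [cn_val] at h4 ⊢
  have h5 := sum_Icc_mul q
  obtain ⟨n, rfl⟩ : ∃ n, q = n + 2 := ⟨q - 2, by omega⟩
  simp only [Nat.add_sub_cancel, show n + 2 - 1 = n + 1 from rfl,
    sum_Icc_succ_top (show 1 ≤ n + 1 by omega), sum_Icc_succ_top (show 1 ≤ n + 1 + 1 by omega)]
    at h4 h5 ⊢
  linear_combination (∑ i ∈ Icc 1 n, PowerSeries.X ^ i + PowerSeries.X ^ (n + 1)) ^ 2 * h4 +
    PowerSeries.X ^ (n + 1) * h5

variable (F) in
theorem indep_BS : LinearIndepOn (RatFunc F) (fmzv F) (BS (qq F)) := by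
  have hq := two_le_q (F := F)
  obtain ⟨h1, h2⟩ := par_series hq
  have h3 := mul_right_cancel₀ (fun e => by
    rw [e, mul_zero] at h2
    simpa [show qq F - 1 ≠ 0 by omega] using congrArg PowerSeries.constantCoeff h2)
    (h2.trans (dim_series F).symm)
  have h4 : ∀ w, Submodule.span (RatFunc F) (Set.range
      fun x : {x // (par (qq F) x).sum = w} => fmzv F (par _ x.1)) = ZA F w := fun w => by
    rw [ZA_eq_BS, ← range_par hq]
    congr 1
    ext α
    constructor
    · rintro ⟨x, rfl⟩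
      exact ⟨_, ⟨⟨x, rfl⟩, x.2⟩, rfl⟩
    · rintro ⟨_, ⟨⟨x, rfl⟩, h⟩, rfl⟩
      exact ⟨⟨x, h⟩, rfl⟩
  have h5 := linearIndependent_iUnion_finite (R := RatFunc F)
    (f := fun w (x : {x // (par (qq F) x).sum = w}) => fmzv F (par _ x.1)) (fun w => ?_)
    fun w T _ hw => ?_
  · rw [← range_par hq, ← Set.image_univ]
    refine LinearIndepOn.image_of_comp _ _ (linearIndepOn_univ_iff.2 ?_)
    exact (linearIndependent_equiv (Equiv.sigmaFiberEquiv fun x => (par (qq F) x).sum)).1 h5
  · have := h1 w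
    let _ := Fintype.ofFinite {x // (par (qq F) x).sum = w}
    rw [linearIndependent_iff_card_eq_finrank_span, Set.finrank, h4, ← Nat.card_eq_fintype_card]
    have h6 := congrArg (PowerSeries.coeff w) h3
    rw [coeff_cn, PowerSeries.coeff_mk] at h6
    exact_mod_cast h6
  · simp only [h4]
    exact (weights_indep F w).mono_right (iSup₂_le fun v hv =>
      le_iSup₂ (f := fun v (_ : v ≠ w) => ZA F v) v fun e => hw (e ▸ hv))

end Pool.Agent.MP_3924c3_nt
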