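import Pool.Agent.Mg.F3924c3.G13b967
import Pool.Agent.MP_cbe134_nt.FFFormal
import Pool.Agent.MP_3924c3_nt.Defs
import Mathlib

section

/-! The triangular system of the words in the generating letters. -/

open Finset Polynomial Filter

namespace Pool.Agent.MP_3924c3_nt

open Pool.Agent.MP_cbe134_nt.FF

variable {F k : Type*} [Field F] [Fintype F] [Field k] [Algebra F k] {t : k}
  {P : Let F t → F[X][X]}

lemma wtL_cons (l : Let F t) (L : List (Let F t)) : wtL (l :: L) = l.wt + wtL L := by simp [wtL]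

/-- the normalised words -/
noncomputable def Tk (P : Let F t → F[X][X]) (A : ℕ × List (Let F t)) (d : ℕ) : k :=
  LL F t d ^ (A.1 + wtL A.2) * Wlt (la P) A.2 (d + 1)

lemma Tk_nil (j d : ℕ) : Tk P (j, []) (d + 1) = (t - t ^ qq F ^ (d + 1)) ^ j * Tk P (j, []) d := by
  simp [Tk, wtL, Wlt, LL_succ, mul_pow, mul_comm]

lemma Tk_cons (ht : Tr F t) (j d : ℕ) (l : Let F t) (L : List (Let F t)) :
    Tk P (j, l :: L) (d + 1) = (t - t ^ qq F ^ (d + 1)) ^ (j + wtL (l :: L)) * Tk P (j, l :: L) d +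
      aeval t ((P l).eval ((X ^ qq F ^ (d + 1)) ^ qq F)) *
        ((t - t ^ qq F ^ (d + 1)) ^ (j + wtL L) * Tk P (j, L) d) := by
  have h := ht.LL_ne (d + 1)
  simp only [Tk, Wlt_cons, psum_succ _ (d + 1), Pi.mul_apply, la, lett_apply, ← eval_mp, map_pow,
    aeval_X, ← mul_assoc, ← mul_pow, mul_comm (t - _), ← LL_succ, wtL_cons]
  rw [← pow_mul, ← pow_mul, mul_comm (qq F), ← LL, mul_assoc _ (_ ^ _)]
  field_simp
  ring

lemma num_of_step {n c : ℕ} {x e : ℕ → k} (h0 : ∃ p : F[X], aeval t p = x 0)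
    (he : ∀ d, ∃ p : F[X], aeval t p = e d ∧ p.natDegree ≤ c * qq F ^ (d + 2))
    (hx : ∀ d, x (d + 1) = (t - t ^ qq F ^ (d + 1)) ^ n * x d + e d) :
    ∃ c, ∀ d, ∃ p : F[X], aeval t p = x d ∧ p.natDegree ≤ c * qq F ^ (d + 1) := by
  have hq := two_le_q (F := F)
  obtain ⟨p, hp⟩ := h0
  refine ⟨n + c + p.natDegree, fun d => ?_⟩
  induction d with
  | zero => exact ⟨p, hp, by rw [zero_add, pow_one]; nlinarith⟩
  | succ d ih =>
    obtain ⟨u, h1, h2⟩ := ih
    obtain ⟨v, h3, h4⟩ := he d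
    refine ⟨(X - X ^ qq F ^ (d + 1)) ^ n * u + v, by simp [hx, h1, h3],
      (natDegree_add_le _ _).trans (max_le (natDegree_mul_le.trans ?_)
        (h4.trans (Nat.mul_le_mul_right _ (by omega))))⟩
    have h5 : ((X - X ^ qq F ^ (d + 1) : F[X]) ^ n).natDegree ≤ n * qq F ^ (d + 1) :=
      natDegree_pow_le.trans (Nat.mul_le_mul_left _ ((natDegree_sub_le _ _).trans
        (by simpa using Nat.one_le_pow _ _ (by omega))))
    rw [pow_succ _ (d + 1)]
    generalize qq F ^ (d + 1) = Q at *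
    have h6 := Nat.mul_le_mul_left ((n + c + p.natDegree) * Q) hq
    nlinarith [Nat.zero_le (c * Q), Nat.zero_le (p.natDegree * Q)]

lemma exists_Tnum (ht : Tr F t) (j : ℕ) (L : List (Let F t)) : ∃ c, ∀ d, ∃ p : F[X],
    aeval t p = Tk P (j, L) d ∧ p.natDegree ≤ c * qq F ^ (d + 1) := by
  have hq := two_le_q (F := F)
  induction L with
  | nil =>
    exact num_of_step (c := 0) (e := 0) ⟨1, by simp [Tk, LL, ell, Wlt]⟩
      (fun d => ⟨0, by simp, by simp⟩) fun d => by rw [Tk_nil, Pi.zero_apply, add_zero]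
  | cons l L ih =>
    obtain ⟨c, hc⟩ := ih
    obtain ⟨δ, hδ⟩ := deg_eval (P l)
    refine num_of_step (c := δ + (P l).natDegree + (j + wtL L) + c) ?_ (fun d => ?_)
      fun d => Tk_cons ht j d l L
    · cases L with
      | nil => exact ⟨(P l).eval (X ^ qq F), by simp [Tk, LL, ell, Wlt, la, lett_zero, ← eval_mp]⟩
      | cons l' L => exact ⟨0, by simp [Tk, Wlt]⟩
    · obtain ⟨u, h1, h2⟩ := hc d
      refine ⟨(P l).eval ((X ^ qq F ^ (d + 1)) ^ qq F) * ((X - X ^ qq F ^ (d + 1)) ^ (j + wtL L) * u),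
        by simp [h1], natDegree_mul_le.trans ((add_le_add_right natDegree_mul_le _).trans ?_)⟩
      have h5 : ((X - X ^ qq F ^ (d + 1) : F[X]) ^ (j + wtL L)).natDegree ≤
          (j + wtL L) * qq F ^ (d + 1) :=
        natDegree_pow_le.trans (Nat.mul_le_mul_left _ ((natDegree_sub_le _ _).trans
          (by simpa using Nat.one_le_pow _ _ (by omega))))
      have h6 := hδ (qq F ^ (d + 2))
      have h7 : qq F ^ (d + 1) ≤ qq F ^ (d + 2) := Nat.pow_le_pow_right (by omega) (by omega)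
      have h8 : 1 ≤ qq F ^ (d + 2) := Nat.one_le_pow _ _ (by omega)
      rw [← pow_mul, ← pow_succ]
      nlinarith [Nat.mul_le_mul_left δ h8, Nat.mul_le_mul_left (j + wtL L + c) h7]

variable (F t) in
/-- the states of weight at most `W` -/
abbrev St (W : ℕ) : Type _ := {A : ℕ × List (Let F t) // A.1 + wtL A.2 ≤ W}

lemma finite_St (ht : Tr F t) (W : ℕ) : Finite (St F t W) := by
  refine Set.Finite.to_subtype (((Set.finite_Iic W).prod (ht.finite_words W)).subset ?_)
  rintro ⟨j, L⟩ (h : j + wtL L ≤ W)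
  exact ⟨by simp only [Set.mem_Iic]; omega, by simp only [Set.mem_ofPred_eq]; omega⟩

open Classical in
/-- the transition matrix -/
noncomputable def mC (P : Let F t → F[X][X]) : ℕ × List (Let F t) → ℕ × List (Let F t) → F[X][X]
  | (_, []), _ => 0
  | (j, l :: L), B => if B = (j, L) then P l else 0

lemma mC_ne {A B : ℕ × List (Let F t)} (h : mC P A B ≠ 0) : ∃ l, A = (B.1, l :: B.2) := by
  obtain ⟨j, _ | ⟨l, L⟩⟩ := A
  · exact absurd rfl h
  · obtain rfl : B = (j, L) := by_contra fun e => h (if_neg e)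
    exact ⟨l, rfl⟩

theorem exists_sys (ht : Tr F t) (hP : Adapted F t P) (W : ℕ) [Fintype (St F t W)] :
    ∃ (T : ℕ → St F t W → F[X]) (c : ℕ), (∀ d A, aeval t (T d A) = Tk P A.1 d) ∧
      Sys t (fun A : St F t W => A.1.2.length) (fun A => A.1.1 + wtL A.1.2)
        (fun A B => mC P A.1 B.1) T c := by
  classical
  choose c T h1 h2 using fun A : St F t W => exists_Tnum (P := P) ht A.1.1 A.1.2
  refine ⟨fun d A => T A d, univ.sup c, fun d A => h1 A d, fun d A => ht ?_,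
    fun d A => (h2 A d).trans (Nat.mul_le_mul_right _ (le_sup (mem_univ A))), fun A B h => ?_,
    fun A B hA hB h => ?_, fun d A hA e => ?_, fun n w c hc h => ?_⟩
  · obtain ⟨⟨j, _ | ⟨l, L⟩⟩, hA⟩ := A
    · simp [h1, Tk_nil, mC, wtL]
    · have hB : j + wtL L ≤ W := by rw [wtL_cons] at hA; dsimp only at hA; omega
      rw [sum_eq_single (⟨(j, L), hB⟩ : St F t W) (fun B _ hB' => by
        rw [mC, if_neg fun e => hB' (Subtype.ext e), eval_zero, zero_mul]) (by simp)]
      simp [h1, Tk_cons ht, mC]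
  · obtain ⟨l, e⟩ := mC_ne h
    simp [e]
  · obtain ⟨⟨j, L⟩, _⟩ := A
    obtain ⟨⟨j', L'⟩, _⟩ := B
    obtain rfl := List.length_eq_zero_iff.1 hA
    obtain rfl := List.length_eq_zero_iff.1 hB
    obtain rfl : j = j' := h
    rfl
  · obtain ⟨⟨j, L⟩, hA'⟩ := A
    obtain rfl := List.length_eq_zero_iff.1 hA
    have := h1 ⟨_, hA'⟩ d
    rw [e, map_zero, Tk, Wlt, mul_one] at this
    exact pow_ne_zero _ (ht.LL_ne d) this.symm
  · ext ⟨⟨j, L⟩, hA⟩
    by_contra h0
    obtain ⟨h3, h4⟩ := hc _ h0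
    rcases L with _ | ⟨l, L⟩
    · simp at h3
    rw [wtL_cons] at h4 hA
    dsimp only at h4 hA
    obtain ⟨b, hb⟩ := h ⟨(j, L), by dsimp only; omega⟩ l.wt (ht.one_le_wt l) (by dsimp only; omega)
    let c' : Let F t → k := fun l' => if h : j + wtL (l' :: L) ≤ W then c ⟨(j, l' :: L), h⟩ else 0
    let T := (finite_Let (F := F) (t := t) l.wt).toFinset.filter fun l' => l'.wt = l.wt
    have hT : ∀ l', l' ∈ T ↔ l'.wt = l.wt := fun l' => by
      simp only [T, mem_filter, Set.Finite.mem_toFinset, Set.mem_ofPred_eq]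
      omega
    have e : ∑ l' ∈ T, c' l' • mp F t (P l') =
        ∑ A : St F t W, C (c A) * mp F t (mC P A.1 (j, L)) := by
      refine sum_bij_ne_zero (fun l' hl' _ => ⟨(j, l' :: L), by
        rw [wtL_cons, (hT l').1 hl']; exact hA⟩) (by simp) (fun a _ _ b _ _ e => by
          simpa using congrArg Subtype.val e) (fun A _ h5 => ?_) fun l' hl' _ => ?_
      · obtain ⟨A, hA'⟩ := A
        obtain ⟨l', rfl⟩ := mC_ne (P := P) (A := A) (B := (j, L)) fun e => h5 (by simp [e, mp])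
        have h6 := (hc _ (C_ne_zero.1 (left_ne_zero_of_mul h5))).2
        rw [wtL_cons] at h6
        refine ⟨l', (hT l').2 (by dsimp only at h6; omega), ?_, rfl⟩
        simpa [c', hA', mC, smul_eq_C_mul] using h5
      · have : j + wtL (l' :: L) ≤ W := by rw [wtL_cons, (hT l').1 hl']; exact hA
        simp [c', this, mC, smul_eq_C_mul]
    have := hP.indep l.wt T c' (fun l' => (hT l').1)
      ⟨Submodule.sum_mem _ fun l' hl' => Submodule.smul_mem _ _ (by
        rw [← (hT l').1 hl']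
        exact (hP.mem l').1), b, e ▸ hb⟩ l ((hT l).2 rfl)
    exact h0 (by simpa [c', wtL_cons, hA] using this)

end Pool.Agent.MP_3924c3_nt

end

section

/-! Abel summation with control on the boundary terms. -/

open Finset Polynomial

namespace Pool.Agent.MP_3924c3_nt

open Pool.Agent.MP_cbe134_nt.FF

variable {F k : Type*} [Field F] [Fintype F] [Field k] [Algebra F k] {t : k}
  {P : Let F t → F[X][X]}

/-- the span of boundary terms times words -/
noncomputable def RB (P : Let F t → F[X][X]) (w : ℕ) : Submodule k (ℕ → k) := Submodule.span k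
  {x | ∃ (s : ℕ) (b : k[X]) (L : List (Let F t)), b ∈ BB k (qq F) s ∧
    (C t - X) ^ s ∣ expand k (qq F) b ∧ s + wtL L = w ∧ x = letK F t s b * Wlt (la P) L}

lemma word_mem_RB (L : List (Let F t)) : Wlt (la P) L ∈ RB P (wtL L) :=
  Submodule.subset_span ⟨0, 1, L, (mem_BB two_le_q).2 (by simp), by simp, by simp,
    by rw [lett_one, one_mul]⟩

lemma psum_mem_RB (ht : Tr F t) (hP : Adapted F t P) (L : List (Let F t)) :
    ∀ (s : ℕ) (u : k[X]), 1 ≤ s → u ∈ BB k (qq F) (s - 1) →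
      psum k (letK F t s u * Wlt (la P) L) ∈ RB P (s + wtL L) := by
  have key : ∀ L : List (Let F t), (∀ (s : ℕ) (e b : k[X]), 1 ≤ s → e ∈ BB k (qq F) (s - 1) →
      Rel (qq F) t s b e → psum k (letK F t s e * Wlt (la P) L) ∈ RB P (s + wtL L)) →
      ∀ (s : ℕ) (u : k[X]), 1 ≤ s → u ∈ BB k (qq F) (s - 1) →
        psum k (letK F t s u * Wlt (la P) L) ∈ RB P (s + wtL L) := by
    intro L h s u hs hu
    rw [← ht.QQ_self hs] at hu
    obtain ⟨e, ⟨he, b, hb⟩, v, hv, rfl⟩ :=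
      Submodule.mem_sup.1 (sup_le le_sup_left (hP.span s s) hu)
    rw [map_add, add_mul, map_add]
    refine add_mem (h s e b hs he hb) ?_
    refine (Submodule.span_le (p := (RB P (s + wtL L)).comap
      (psum k ∘ₗ LinearMap.mulRight k (Wlt (la P) L) ∘ₗ letK F t s))).2 ?_ hv
    rintro _ ⟨l, rfl, -, rfl⟩
    exact wtL_cons l L ▸ word_mem_RB (l :: L)
  induction L with
  | nil =>
    refine key _ fun s e b hs he h => ?_
    rw [Wlt_nil, mul_one, ← (ht.rel_iff hs).1 h]
    exact Submodule.subset_span ⟨s, b, [], h.mem_of_e two_le_q (BB_mono (by omega) he), ⟨_, h⟩, rfl,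
      by rw [Wlt_nil, mul_one]⟩
  | cons l L ih =>
    refine key _ fun s e b hs he h => ?_
    have hb := h.mem_of_e two_le_q (BB_mono (by omega) he)
    have h1 := psum_mul_psum (letK F t s e) (la P l * Wlt (la P) L)
    rw [← (ht.rel_iff hs).1 h, ← Wlt_cons, ← map_add (letK F t s), ← mul_assoc, la, lett_mul,
      ← sub_eq_iff_eq_add] at h1
    rw [← h1]
    refine sub_mem (Submodule.subset_span ⟨s, b, l :: L, hb, ⟨_, h⟩, rfl, rfl⟩) ?_
    have := ht.one_le_wt l
    have h3 := ih (s + l.wt) _ (by omega) (BB_mono (by omega) (mul_mem_BB two_le_q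
      (add_mem hb (BB_mono (Nat.sub_le s 1) he)) (hP.mem l).1))
    rwa [add_assoc, ← wtL_cons] at h3

lemma Wlt_mem_RB (ht : Tr F t) (hP : Adapted F t P) (s : List ℕ) (h1 : ∀ a ∈ s, 1 ≤ a) :
    Wlt (SS F t) s ∈ RB P s.sum := by
  induction s with
  | nil => exact word_mem_RB []
  | cons a s ih =>
    have ha := h1 a (by simp)
    refine (Submodule.span_le (p := (RB P (a :: s).sum).comap
      (psum k ∘ₗ LinearMap.mulLeft k (SS F t a)))).2 ?_ (ih fun b hb => h1 b (by simp [hb]))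
    rintro _ ⟨s', b, L, h2, -, h4, rfl⟩
    obtain ⟨H, h5, h6, -⟩ := ht.exists_H' ha
    have h7 := psum_mem_RB ht hP L (a + s') _ (by omega)
      (BB_mono (by omega) (mul_mem_BB two_le_q h5.1 h2))
    rwa [← lett_mul, ← h6, mul_assoc, add_assoc, h4] at h7

variable (F t) in
/-- the sequence of the `1 / ℓ_{D-1} ^ q` -/
noncomputable def vp : ℕ → k := letK F t (qq F) (C (t ^ qq F) - X)

lemma vp_mem (ht : Tr F t) : vp F t ∈ Slt F t (qq F) (qq F) := by
  have hq := two_le_q (F := F)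
  have h1 : Rel (qq F) t (qq F) (C (t ^ qq F) - X) (1 - (C (t ^ qq F) - X)) := by
    rw [MP_cbe134_nt.FF.Rel, expand_Z, add_sub_cancel, mul_one]
  rw [vp, (ht.rel_iff (by omega)).1 h1]
  refine psum_mem (ht.BB_le (s := qq F) (by omega) (fun j hj => ⟨j, ?_, ht.Z_pow_mem j⟩)
    (h1.mem_of_b (by omega) ((mem_BB hq).2 (by rw [natDegree_Y]; omega)))).2
  have := Nat.mul_le_mul_left j (show 1 ≤ qq F - 1 by omega)
  omega

lemma letK_succ (ht : Tr F t) {s : ℕ} {b β : k[X]} (h : expand k (qq F) b = (C t - X) ^ s * β)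
    (d : ℕ) : letK F t s b (d + 1) = β.eval (t ^ qq F ^ (d + 1)) * (LL F t d)⁻¹ ^ s := by
  have h1 := congrArg (eval (t ^ qq F ^ (d + 1))) h
  have h2 := ht.LL_ne (d + 1)
  rw [expand_eval, ← pow_mul, mul_comm, pow_mul] at h1
  rw [lett_apply, h1, ← LL]
  rw [LL_succ] at h2 ⊢
  have := left_ne_zero_of_mul h2
  have := right_ne_zero_of_mul h2
  simp only [eval_mul, eval_pow, eval_sub, eval_C, eval_X, mul_pow, inv_pow]
  field_simp

lemma vp_succ (ht : Tr F t) (d : ℕ) : vp F t (d + 1) = (LL F t d)⁻¹ ^ qq F := by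
  rw [vp, letK_succ ht (β := 1) (by rw [expand_Z, mul_one]), eval_one, one_mul]

lemma eval_eq_zero {s : ℕ} {b β : k[X]} (h : expand k (qq F) b = (C t - X) ^ s * β)
    (hs : ¬qq F ∣ s) : β.eval t = 0 := by
  have hq := two_le_q (F := F)
  have h1 := Nat.div_add_mod s (qq F)
  have h2 := Nat.mod_lt s (show 0 < qq F by omega)
  have h3 : s % qq F ≠ 0 := fun e => hs (Nat.dvd_of_mod_eq_zero e)
  obtain ⟨c, rfl⟩ := Z_pow_dvd (F := F) (t := t) (s / qq F) b
    ((pow_dvd_pow _ (by omega)).trans ⟨_, h⟩)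
  obtain ⟨n, hn⟩ : ∃ n, qq F * (s / qq F + 1) = s + (n + 1) :=
    ⟨qq F - s % qq F - 1, by rw [mul_add]; omega⟩
  rw [map_mul, map_pow, expand_Z, ← pow_mul, hn, pow_add, mul_assoc] at h
  rw [← mul_left_cancel₀ (pow_ne_zero _ (Y_ne t)) h]
  simp

end Pool.Agent.MP_3924c3_nt

end

section

/-! Reduction of sequences of rational functions modulo almost all primes. -/

open Finset Polynomial Filter

namespace Pool.Agent.MP_3924c3_nt

open Pool.Agent.MP_cbe134_nt.FF

variable {F : Type*} [Field F]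

lemma tr_X : Tr F (RatFunc.X : RatFunc F) := fun a b h => by
  rw [RatFunc.aeval_X_left_eq_algebraMap, RatFunc.aeval_X_left_eq_algebraMap] at h
  exact IsFractionRing.injective F[X] (RatFunc F) h

lemma gen_X : Gen F (RatFunc.X : RatFunc F) := fun x => ⟨x.denom, x.num, by
  rw [RatFunc.aeval_X_left_eq_algebraMap, RatFunc.aeval_X_left_eq_algebraMap]
  have := RatFunc.algebraMap_ne_zero x.denom_ne_zero
  exact ⟨this, by rw [mul_comm, ← eq_div_iff this, RatFunc.num_div_denom]⟩⟩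

/-- the graph of the reduction modulo `P` -/
noncomputable def RP (P : Pr F) : Subring (RatFunc F × AdjoinRoot P.1) where
  carrier := {z | ∃ n d : F[X], AdjoinRoot.mk P.1 d ≠ 0 ∧
    aeval RatFunc.X d * z.1 = aeval RatFunc.X n ∧ AdjoinRoot.mk P.1 d * z.2 = AdjoinRoot.mk P.1 n}
  mul_mem' := by
    rintro a b ⟨n, d, h1, h2, h3⟩ ⟨n', d', h1', h2', h3'⟩
    refine ⟨n * n', d * d', by simp [h1, h1'], ?_, ?_⟩
    · simp only [map_mul, ← h2, ← h2', Prod.fst_mul]; ring
    · simp only [map_mul, ← h3, ← h3', Prod.snd_mul]; ring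
  one_mem' := ⟨1, 1, by simp, by simp, by simp⟩
  add_mem' := by
    rintro a b ⟨n, d, h1, h2, h3⟩ ⟨n', d', h1', h2', h3'⟩
    refine ⟨n * d' + n' * d, d * d', by simp [h1, h1'], ?_, ?_⟩
    · simp only [map_mul, map_add, ← h2, ← h2', Prod.fst_add]; ring
    · simp only [map_mul, map_add, ← h3, ← h3', Prod.snd_add]; ring
  zero_mem' := ⟨0, 1, by simp, by simp, by simp⟩
  neg_mem' := by
    rintro a ⟨n, d, h1, h2, h3⟩
    exact ⟨-n, d, h1, by simp [← h2], by simp [← h3]⟩

lemma RP_poly (P : Pr F) (a : F[X]) : (aeval RatFunc.X a, AdjoinRoot.mk P.1 a) ∈ RP P :=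
  ⟨a, 1, by simp, by simp, by simp⟩

lemma RP_zero {P : Pr F} {y : AdjoinRoot P.1} (h : (0, y) ∈ RP P) : y = 0 := by
  obtain ⟨n, d, h1, h2, h3⟩ := h
  obtain rfl : n = 0 := tr_X (by simpa using h2.symm)
  simpa [h1] using h3

lemma mk_eq {f g : ∀ P : Pr F, AdjoinRoot P.1} : cls F f =
    cls F g ↔ ∀ᶠ P in cofinite, f P = g P := by
  rw [eventually_cofinite]
  refine Ideal.Quotient.eq.trans ?_
  simp only [← sub_eq_zero (a := f _)]
  rfl

lemma algebraMap_aeval (a : F[X]) :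
    algebraMap (RatFunc F) (FA F) (aeval RatFunc.X a) = diag F a := by
  rw [RatFunc.aeval_X_left_eq_algebraMap]
  exact IsLocalization.lift_eq _ _

variable (F) in
/-- the graph of the reduction of sequences -/
noncomputable def Red : Subalgebra (RatFunc F) ((ℕ → RatFunc F) × FA F) where
  carrier := {z | ∃ f, cls F f = z.2 ∧
    ∀ᶠ P : Pr F in cofinite, (z.1 P.1.natDegree, f P) ∈ RP P}
  mul_mem' := by
    rintro a b ⟨f, h1, h2⟩ ⟨g, h3, h4⟩
    exact ⟨f * g, by simp [h1, h3], (h2.and h4).mono fun P h => mul_mem h.1 h.2⟩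
  add_mem' := by
    rintro a b ⟨f, h1, h2⟩ ⟨g, h3, h4⟩
    exact ⟨f + g, by simp [h1, h3], (h2.and h4).mono fun P h => add_mem h.1 h.2⟩
  algebraMap_mem' := fun c => by
    obtain ⟨d, n, h1, h2⟩ := gen_X c
    have h0 : d ≠ 0 := fun e => h1 (by simp [e])
    have h3 : ∀ᶠ P : Pr F in cofinite, AdjoinRoot.mk P.1 d ≠ 0 := by
      simpa only [eventually_cofinite, not_not] using finite_dvd F h0
    refine ⟨fun P => (AdjoinRoot.mk P.1 d)⁻¹ * AdjoinRoot.mk P.1 n, ?_,
      h3.mono fun P h => ⟨n, d, h, h2, mul_inv_cancel_left₀ h _⟩⟩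
    refine (isUnit_diag F ⟨d, mem_nonZeroDivisors_of_ne_zero h0⟩).mul_left_cancel ?_
    change diag F d * _ = diag F d * algebraMap (RatFunc F) (FA F) c
    rw [← algebraMap_aeval, ← map_mul, h2, algebraMap_aeval, algebraMap_aeval]
    exact mk_eq.2 (h3.mono fun P h => mul_inv_cancel_left₀ h _)

variable {x y : ℕ → RatFunc F} {α β : FA F}

lemma Red_unique (h : (x, α) ∈ Red F) (h' : (x, β) ∈ Red F) : α = β := by
  obtain ⟨f, h1, h2⟩ := sub_mem h h'
  rw [← sub_eq_zero]
  exact h1.symm.trans (mk_eq.2 (h2.mono fun P h => RP_zero (by simpa using h)))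

lemma Red_congr (h : (x, α) ∈ Red F) (e : ∀ d, y (d + 1) = x (d + 1)) : (y, α) ∈ Red F := by
  obtain ⟨f, h1, h2⟩ := h
  refine ⟨f, h1, h2.mono fun P h => ?_⟩
  obtain ⟨d, hd⟩ := Nat.exists_eq_add_of_le' P.2.2.natDegree_pos
  dsimp only at h ⊢
  rwa [hd, e, ← hd]

lemma Red_poly (p : ℕ → F[X]) : (fun D => aeval RatFunc.X (p D),
    cls F fun P => AdjoinRoot.mk P.1 (p P.1.natDegree)) ∈ Red F :=
  ⟨_, rfl, Eventually.of_forall fun P => RP_poly P _⟩

lemma dvd_of_Red {p : ℕ → F[X]} (h : (fun D => aeval RatFunc.X (p D), 0) ∈ Red F) :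
    ∃ D₀, ∀ d, D₀ ≤ d → ∀ P : F[X], P.Monic → Irreducible P → P.natDegree = d + 1 →
      P ∣ p (d + 1) := by
  have h1 := eventually_cofinite.1 (mk_eq.1 (Red_unique (Red_poly p) h))
  refine ⟨h1.toFinset.sup fun P => P.1.natDegree, fun d hd P h2 h3 h4 => by_contra fun h5 => ?_⟩
  have : P.natDegree ≤ _ := le_sup (f := fun P : Pr F => P.1.natDegree) (b := ⟨P, h2, h3⟩)
    (h1.mem_toFinset.2 fun e => h5 (h4 ▸ AdjoinRoot.mk_eq_zero.1 e))
  omega

variable [Fintype F]

lemma Red_frob : (fun D => RatFunc.X ^ qq F ^ D, algebraMap (RatFunc F) (FA F) RatFunc.X) ∈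
    Red F := by
  have h := Red_poly (F := F) fun D => X ^ qq F ^ D
  simp only [aeval_X_pow] at h
  convert h using 2
  have h1 := algebraMap_aeval (F := F) X
  rw [aeval_X] at h1
  refine h1.trans (mk_eq.2 (Eventually.of_forall fun P => (AdjoinRoot.mk_eq_mk.2 ?_).symm))
  rw [qq, ← Nat.card_eq_fintype_card]
  exact P.2.2.natDegree_dvd_iff_dvd_X_pow_card_pow_sub_X.1 dvd_rfl

lemma RP_SS (P : Pr F) (s : ℕ) {d : ℕ} (hd : d < P.1.natDegree) :
    (SS F RatFunc.X s d, ∑ a ∈ Mon F d, (AdjoinRoot.mk P.1 a)⁻¹ ^ s) ∈ RP P := by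
  rw [SS, prod_mk_sum]
  refine sum_mem fun a ha => pow_mem (x := ((aeval RatFunc.X a)⁻¹, (AdjoinRoot.mk P.1 a)⁻¹)) ?_ s
  obtain ⟨h1, h2⟩ := mem_Mon.1 ha
  have h3 : AdjoinRoot.mk P.1 a ≠ 0 := AdjoinRoot.mk_ne_zero_of_natDegree_lt P.2.1 h1.ne_zero
    (by omega)
  exact ⟨1, a, h3, (mul_inv_cancel₀ (tr_X.aeval_ne h1.ne_zero)).trans (map_one _).symm, by simp [h3]⟩

lemma Red_eta : ∃ α, (fun D => (LL F RatFunc.X (D - 1))⁻¹, α) ∈ Red F := by
  refine ⟨_, fun P => ∑ a ∈ Mon F (P.1.natDegree - 1), (AdjoinRoot.mk P.1 a)⁻¹ ^ 1, rfl,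
    Eventually.of_forall fun P => ?_⟩
  have := RP_SS P 1 (Nat.sub_lt P.2.2.natDegree_pos one_pos)
  rwa [tr_X.SS_one, lett_apply, eval_one, pow_one, one_div] at this

lemma finsum_eq_Wlt {R : Type*} [CommRing R] (f : ℕ → F[X] → R) (s : List ℕ) (D : ℕ) :
    ∑ᶠ a ∈ {a : Fin s.length → F[X] | (∀ i, (a i).Monic ∧ (a i).natDegree < D) ∧
      StrictAnti fun i => (a i).natDegree}, ∏ i, f (s.get i) (a i) =
    Wlt (fun n d => ∑ a ∈ Mon F d, f n a) s D := by
  classical
  let T : ∀ r : ℕ, ℕ → Finset (Fin r → F[X]) := fun r D =>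
    (Fintype.piFinset fun _ => Low F D).filter fun a =>
      (∀ i, (a i).Monic) ∧ StrictAnti fun i => (a i).natDegree
  have hT : ∀ r D a, a ∈ T r D ↔ (∀ i, (a i).Monic ∧ (a i).natDegree < D) ∧
      StrictAnti fun i => (a i).natDegree := fun r D a => by
    simp only [T, mem_filter, Fintype.mem_piFinset, mem_Low]
    exact ⟨fun h => ⟨fun i => ⟨h.2.1 i, (natDegree_lt_iff_degree_lt (h.2.1 i).ne_zero).2 (h.1 i)⟩,
      h.2.2⟩, fun h => ⟨fun i => (natDegree_lt_iff_degree_lt (h.1 i).1.ne_zero).1 (h.1 i).2,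
        fun i => (h.1 i).1, h.2⟩⟩
  rw [show {a : Fin s.length → F[X] | (∀ i, (a i).Monic ∧ (a i).natDegree < D) ∧
      StrictAnti fun i => (a i).natDegree} = ↑(T s.length D) from Set.ext fun a => (hT _ _ a).symm,
    finsum_mem_coe_finset]
  induction s generalizing D with
  | nil =>
    refine (sum_eq_single_of_mem (s := T 0 D) default ((hT _ _ _).2 ⟨fun i => i.elim0,
      fun i => i.elim0⟩) fun _ _ h => absurd (Subsingleton.elim _ _) h).trans ?_
    simp [Wlt]
  | cons n s ih =>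
    simp only [Wlt, ← ih, sum_mul_sum, sum_sigma', List.length_cons, Fin.prod_univ_succ]
    refine sum_nbij' (fun a => ⟨(a 0).natDegree, a 0, Fin.tail a⟩) (fun z => Fin.cons z.2.1 z.2.2)
      (fun a ha => ?_) (fun z hz => ?_) (by simp) (fun z hz => ?_) fun _ _ => rfl
    · obtain ⟨h1, h2⟩ := (hT _ _ _).1 ha
      simp only [mem_sigma, mem_range, mem_Mon, hT]
      exact ⟨(h1 0).2, ⟨(h1 0).1, trivial⟩, fun i => ⟨(h1 _).1, h2 (Fin.succ_pos i)⟩,
        h2.comp_strictMono Fin.strictMono_succ⟩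
    · simp only [mem_sigma, mem_range, mem_Mon, hT] at hz ⊢
      obtain ⟨h1, ⟨h2, h3⟩, h4, h5⟩ := hz
      refine ⟨Fin.cases ⟨h2, by simpa [h3] using h1⟩ fun i => ⟨(h4 i).1, (h4 i).2.trans h1⟩,
        fun i j hij => ?_⟩
      obtain ⟨j, rfl⟩ := Fin.exists_succ_eq.2 (Fin.pos_iff_ne_zero.1 ((Fin.zero_le i).trans_lt hij))
      cases i using Fin.cases with
      | zero => simpa [h3] using (h4 j).2
      | succ i => simpa using h5 (Fin.succ_lt_succ_iff.1 hij)
    · obtain ⟨e, a, b⟩ := z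
      simp only [mem_sigma, mem_Mon] at hz
      obtain rfl : a.natDegree = e := hz.2.1.2
      simp

lemma Red_fmzv (s : List ℕ) : (Wlt (SS F RatFunc.X) s, fmzv F s) ∈ Red F := by
  refine ⟨_, rfl, Eventually.of_forall fun P => ?_⟩
  rw [finsum_eq_Wlt fun n a => (AdjoinRoot.mk P.1 a)⁻¹ ^ n]
  suffices h : ∀ D ≤ P.1.natDegree, (Wlt (SS F RatFunc.X) s D,
      Wlt (fun n d => ∑ a ∈ Mon F d, (AdjoinRoot.mk P.1 a)⁻¹ ^ n) s D) ∈ RP P from h _ le_rfl
  induction s with
  | nil => exact fun _ _ => one_mem _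
  | cons n s ih =>
    intro D hD
    rw [Wlt, Wlt, prod_mk_sum]
    exact sum_mem fun e he => mul_mem (RP_SS P n ((mem_range.1 he).trans_le hD))
      (ih e ((mem_range.1 he).le.trans hD))

end Pool.Agent.MP_3924c3_nt

end

section

/-! A basis of the span of the finite multiple zeta values. -/

open Finset Polynomial Filter

namespace Pool.Agent.MP_3924c3_nt

open Pool.Agent.MP_cbe134_nt.FF

variable {F : Type*} [Field F] [Fintype F] {P : Let F (RatFunc.X : RatFunc F) → F[X][X]}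

omit [Fintype F] in
lemma lift_span {S : Set (ℕ → RatFunc F)} {W : Submodule (RatFunc F) (FA F)}
    (h : ∀ x ∈ S, ∃ α ∈ W, (x, α) ∈ Red F) {x : ℕ → RatFunc F}
    (hx : x ∈ Submodule.span (RatFunc F) S) : ∃ α ∈ W, (x, α) ∈ Red F := by
  induction hx using Submodule.span_induction with
  | mem x hx => exact h x hx
  | zero => exact ⟨0, zero_mem _, zero_mem _⟩
  | add x y _ _ hx hy =>
    obtain ⟨α, h1, h2⟩ := hx
    obtain ⟨β, h3, h4⟩ := hy
    exact ⟨α + β, add_mem h1 h3, add_mem h2 h4⟩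
  | smul c x _ hx =>
    obtain ⟨α, h1, h2⟩ := hx
    exact ⟨c • α, W.smul_mem c h1, (Red F).smul_mem h2 c⟩

omit [Fintype F] in
lemma Red_mul {x y : ℕ → RatFunc F} {α β : FA F} (h : (x, α) ∈ Red F) (h' : (y, β) ∈ Red F) :
    (x * y, α * β) ∈ Red F := mul_mem h h'

lemma lift_Slt {w r : ℕ} {x : ℕ → RatFunc F} (hx : x ∈ Slt F RatFunc.X w r) :
    ∃ α ∈ ZA F w, (x, α) ∈ Red F := by
  refine lift_span ?_ hx
  rintro _ ⟨s, h1, h2, -, rfl⟩
  exact ⟨_, Submodule.subset_span ⟨⟨s, fun {a} ha => h1 a ha, h2⟩, rfl⟩, Red_fmzv s⟩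

/-- the weight of a basis element -/
noncomputable def wE (A : ℕ × List (Let F (RatFunc.X : RatFunc F))) : ℕ := qq F * A.1 + wtL A.2

lemma exists_E (hP : Adapted F RatFunc.X P) : ∃ E : ℕ × List (Let F RatFunc.X) → FA F,
    ∀ A, E A ∈ ZA F (wE A) ∧ (vp F RatFunc.X ^ A.1 * Wlt (la P) A.2, E A) ∈ Red F := by
  have h : ∀ j, vp F (RatFunc.X : RatFunc F) ^ j ∈ Slt F RatFunc.X (qq F * j) (qq F * j) :=
    fun j => by
      induction j with
      | zero => exact one_mem_Slt
      | succ j ih => rw [pow_succ]; exact tr_X.mul_lt ih (vp_mem tr_X)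
  choose E h1 h2 using fun A : ℕ × List (Let F RatFunc.X) =>
    lift_Slt (tr_X.mul_lt (h A.1) (tr_X.word_mem hP A.2))
  exact ⟨E, fun A => ⟨h1 A, h2 A⟩⟩

variable {E : ℕ × List (Let F (RatFunc.X : RatFunc F)) → FA F}

lemma ZA_eq (hP : Adapted F RatFunc.X P)
    (hE : ∀ A, E A ∈ ZA F (wE A) ∧ (vp F RatFunc.X ^ A.1 * Wlt (la P) A.2, E A) ∈ Red F) (w : ℕ) :
    ZA F w = Submodule.span (RatFunc F) (E '' {A | wE A = w}) := by
  refine le_antisymm (Submodule.span_le.2 ?_) (Submodule.span_le.2 ?_)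
  swap
  · rintro _ ⟨A, rfl, rfl⟩
    exact (hE A).1
  rintro _ ⟨c, rfl⟩
  suffices h : ∃ α ∈ Submodule.span (RatFunc F) (E '' {A | wE A = w}),
      (Wlt (SS F RatFunc.X) c.blocks, α) ∈ Red F by
    obtain ⟨α, h1, h2⟩ := h
    rwa [Red_unique h2 (Red_fmzv _)] at h1
  refine lift_span ?_ (Wlt_mem_RB tr_X hP c.blocks fun a ha => c.blocks_pos ha)
  rintro _ ⟨s, b, L, -, ⟨β, hβ⟩, h3, rfl⟩
  have h4 : (fun D => β.eval (RatFunc.X ^ qq F ^ D),
      algebraMap (RatFunc F) (FA F) (β.eval RatFunc.X)) ∈ Red F := by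
    have h5 : aeval _ β ∈ Red F := Algebra.adjoin_le (Set.singleton_subset_iff.2 Red_frob)
      (aeval_mem_adjoin_singleton _ _)
    rw [aeval_prod_apply, aeval_algebraMap_apply, coe_aeval_eq_eval] at h5
    convert h5 using 2
    ext D
    rw [aeval_pi_apply₂, coe_aeval_eq_eval]
  by_cases hs : qq F ∣ s
  · obtain ⟨j, rfl⟩ := hs
    refine ⟨_, ?_, Red_congr (Red_mul h4 (hE (j, L)).2) fun d => ?_⟩
    · rw [← Algebra.smul_def]
      exact Submodule.smul_mem _ _ (Submodule.subset_span ⟨(j, L), h3.trans c.blocks_sum, rfl⟩)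
    · simp only [Pi.mul_apply, letK_succ tr_X hβ, Pi.pow_apply, vp_succ tr_X, pow_mul, mul_assoc]
  · obtain ⟨η, hη⟩ := Red_eta (F := F)
    refine ⟨_, ?_, Red_congr (Red_mul (Red_mul h4 (pow_mem hη s : (_ ^ s, η ^ s) ∈ Red F))
      (hE (0, L)).2) fun d => ?_⟩
    · simp [eval_eq_zero hβ hs]
    · simp [letK_succ tr_X hβ]

lemma indep_E (hP : Adapted F RatFunc.X P)
    (hE : ∀ A, E A ∈ ZA F (wE A) ∧ (vp F RatFunc.X ^ A.1 * Wlt (la P) A.2, E A) ∈ Red F) :
    LinearIndependent (RatFunc F) E := by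
  classical
  have hq := two_le_q (F := F)
  refine linearIndependent_iff'.2 fun s g hg i₀ hi₀ => ?_
  obtain ⟨b, hb⟩ := IsLocalization.exist_integer_multiples (nonZeroDivisors F[X]) s g
  choose! a ha using hb
  simp only [← RatFunc.aeval_X_left_eq_algebraMap, Algebra.smul_def] at ha
  have hW : ∀ i ∈ s, wE i ≤ s.sup wE := fun i => le_sup
  generalize s.sup wE = W at hW
  have := finite_St (tr_X (F := F)) W
  let _ := Fintype.ofFinite (St F (RatFunc.X : RatFunc F) W)
  obtain ⟨T, c, hT, H⟩ := exists_sys tr_X hP W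
  let σ : ℕ × List (Let F (RatFunc.X : RatFunc F)) → ℕ × List (Let F (RatFunc.X : RatFunc F)) :=
    fun i => (W - wE i, i.2)
  let a' : St F (RatFunc.X : RatFunc F) W → F[X] := fun A => ∑ i ∈ s, if σ i = A.1 then a i else 0
  have hσ : ∀ i ∈ s, (σ i).1 + wtL (σ i).2 + qq F * i.1 = W := fun i hi => by
    have := hW i hi
    simp only [σ, wE] at this ⊢
    omega
  have h0 := sum_mem fun i (_ : i ∈ s) => (Red F).smul_mem (hE i).2 (g i)
  simp only [Prod.smul_mk, ← prod_mk_sum, hg] at h0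
  have h1 := Red_mul (Red_poly fun D =>
    (∏ i ∈ range (D - 1), (X - (X ^ qq F) ^ qq F ^ i)) ^ W * b.1) h0
  rw [mul_zero] at h1
  suffices h2 : (fun D => aeval RatFunc.X (∑ A, a' A * T (D - 1) A), 0) ∈ Red F by
    obtain ⟨D₀, h2⟩ := dvd_of_Red h2
    have h3 := congrFun (H.indep_mod tr_X gen_X a' D₀ h2) ⟨σ i₀, by have := hσ i₀ hi₀; omega⟩
    simp only [a'] at h3
    have hinj : ∀ i ∈ s, i ≠ i₀ → σ i ≠ σ i₀ := fun i hi hne e => by
      have h4 := hσ i hi
      have := hσ i₀ hi₀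
      rw [e] at h4
      exact hne (Prod.ext (Nat.eq_of_mul_eq_mul_left (show 0 < qq F by omega) (by omega))
        (congrArg Prod.snd e :))
    rw [sum_eq_single_of_mem i₀ hi₀ fun i hi hne => if_neg (hinj i hi hne), if_pos rfl] at h3
    have h4 := ha i₀ hi₀
    rw [h3, Pi.zero_apply, map_zero, eq_comm, mul_eq_zero] at h4
    exact h4.resolve_left (tr_X.aeval_ne (nonZeroDivisors.coe_ne_zero b))
  refine Red_congr h1 fun d => ?_
  · simp only [a', map_sum, map_mul, hT, sum_mul, Nat.add_sub_cancel, Pi.mul_apply, Pi.smul_apply,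
      Finset.sum_apply, smul_eq_mul, mul_sum, Pi.pow_apply, vp_succ tr_X]
    rw [sum_comm]
    refine sum_congr rfl fun i hi => ?_
    rw [sum_eq_single ⟨σ i, by have := hσ i hi; omega⟩ (fun A _ hA => by
      rw [if_neg fun e => hA (Subtype.ext e.symm), map_zero, zero_mul]) (by simp), if_pos rfl,
      ha i hi, Tk]
    have h3 : aeval (RatFunc.X : RatFunc F) ((∏ i ∈ range d, (X - (X ^ qq F) ^ qq F ^ i) : F[X]) ^ W) =
        LL F RatFunc.X d ^ W := by
      simp only [map_pow, map_prod, map_sub, aeval_X, LL, ell]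
    have h4 := tr_X.LL_ne (F := F) (k := RatFunc F) d
    have h5 := congrArg (LL F (RatFunc.X : RatFunc F) d ^ ·) (hσ i hi)
    dsimp only at h5 ⊢
    rw [h3, ← h5, pow_add _ _ (qq F * i.1), ← pow_mul, inv_pow]
    field_simp
    rfl

end Pool.Agent.MP_3924c3_nt

end

section

/-! Counting series in one variable. -/

open Finset PowerSeries

namespace Pool.Agent.MP_3924c3_nt

variable {A B : Type*}

/-- the counting series of a degree function -/
noncomputable def cn (f : A → ℕ) : PowerSeries ℤ := mk fun n => (Nat.card {x // f x = n} : ℤ)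

/-- finite fibres -/
def FinFib (f : A → ℕ) : Prop := ∀ n, Finite {x // f x = n}

lemma coeff_cn (f : A → ℕ) (n : ℕ) : coeff n (cn f) = (Nat.card {x // f x = n} : ℤ) := coeff_mk _ _

lemma cn_equiv (e : A ≃ B) (f : B → ℕ) : cn (fun x => f (e x)) = cn f := by
  ext m
  rw [coeff_cn, coeff_cn, Nat.card_congr (e.subtypeEquiv (q := fun x => f x = m) fun _ => Iff.rfl)]

lemma FinFib.comp {f : B → ℕ} (h : FinFib f) {e : A → B} (he : Function.Injective e) :
    FinFib fun x => f (e x) := fun m =>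
  have := h m
  Finite.of_injective (fun x : {x // f (e x) = m} => (⟨e x, x.2⟩ : {x // f x = m}))
    fun _ _ h => Subtype.ext (he (congrArg Subtype.val h))

lemma cn_sum {f : A ⊕ B → ℕ} (h : FinFib f) :
    cn f = cn (fun a => f (.inl a)) + cn fun b => f (.inr b) := by
  ext m
  have := h.comp Sum.inl_injective m
  have := h.comp Sum.inr_injective m
  rw [map_add, coeff_cn, coeff_cn, coeff_cn, Nat.card_congr Equiv.subtypeSum, Nat.card_sum,
    Nat.cast_add]

lemma cn_unit (d : ℕ) : cn (fun _ : Unit => d) = X ^ d := by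
  ext m
  rw [coeff_cn, coeff_X_pow]
  split_ifs with h
  · subst h
    simp
  · have : IsEmpty {x : Unit // d = m} := ⟨fun x => h x.2.symm⟩
    simp

lemma cn_prod {f : A → ℕ} {g : B → ℕ} (hf : FinFib f) (hg : FinFib g) :
    cn (fun z : A × B => f z.1 + g z.2) = cn f * cn g := by
  ext m
  let e : {z : A × B // f z.1 + g z.2 = m} ≃
      Σ p : antidiagonal m, {x // f x = p.1.1} × {y // g y = p.1.2} :=
    { toFun := fun z => ⟨⟨(f z.1.1, g z.1.2), mem_antidiagonal.2 z.2⟩, ⟨z.1.1, rfl⟩, ⟨z.1.2, rfl⟩⟩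
      invFun := fun x => ⟨(x.2.1, x.2.2), by rw [x.2.1.2, x.2.2.2, mem_antidiagonal.1 x.1.2]⟩
      left_inv := fun _ => rfl
      right_inv := by
        rintro ⟨⟨⟨a, b⟩, _⟩, ⟨x, hx⟩, ⟨y, hy⟩⟩
        dsimp only at hx hy
        subst hx hy
        rfl }
  have := hf
  have := hg
  unfold FinFib at *
  rw [coeff_mul, coeff_cn, Nat.card_congr e, Nat.card_sigma, ← sum_coe_sort (antidiagonal m)]
  simp only [coeff_cn, Nat.card_prod, Nat.cast_sum, Nat.cast_mul]

lemma cn_list {f : A → ℕ} (hf : FinFib f) (h : FinFib fun L : List A => (L.map f).sum) :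
    cn (fun L : List A => (L.map f).sum) * (1 - cn f) = 1 := by
  let e : Unit ⊕ A × List A ≃ List A :=
    { toFun := Sum.elim (fun _ => []) fun z => z.1 :: z.2
      invFun := fun L => List.casesOn L (.inl ()) fun a L => .inr (a, L)
      left_inv := by rintro (_ | _) <;> rfl
      right_inv := by rintro (_ | _) <;> rfl }
  have h1 := cn_sum (h.comp e.injective)
  rw [cn_equiv e fun L : List A => (L.map f).sum] at h1
  have h2 := cn_prod hf h
  have h3 := cn_unit 0
  rw [pow_zero] at h3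
  have h4 : cn (fun L : List A => (L.map f).sum) =
      1 + cn f * cn fun L : List A => (L.map f).sum := by
    rw [← h2, ← h3]
    exact h1
  linear_combination h4

lemma geo {p : ℕ} (hp : 1 ≤ p) :
    (mk fun s => if p ∣ s then (1 : ℤ) else 0) * (1 - X ^ p) = 1 := by
  ext n
  rw [mul_sub, mul_one, map_sub, coeff_mul_X_pow', coeff_mk, coeff_mk, coeff_one]
  by_cases h : p ≤ n
  · simp [h, Nat.dvd_sub_iff_left h, show n ≠ 0 by omega]
  · by_cases h0 : n = 0
    · simp [h0, show p ≠ 0 by omega]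
    · simp [h, h0, mt (Nat.le_of_dvd (by omega)) h]

lemma cn_mul {p : ℕ} (hp : 1 ≤ p) : cn (fun j => p * j) * (1 - X ^ p) = 1 := by
  convert geo hp using 2
  ext n
  rw [coeff_cn, coeff_mk]
  split_ifs with h
  · obtain ⟨j, rfl⟩ := h
    exact_mod_cast Nat.card_eq_one_iff_exists.2 ⟨⟨j, rfl⟩, fun y : {x // p * x = p * j} =>
      Subtype.ext (Nat.eq_of_mul_eq_mul_left hp y.2)⟩
  · have : IsEmpty {j // p * j = n} := ⟨fun x => h ⟨x, x.2.symm⟩⟩
    simp

lemma finFib_of_le {f : A → ℕ} (h : ∀ w, {x | f x ≤ w}.Finite) : FinFib f := fun m =>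
  (h m).subset (s := {x | f x ≤ m}) (t := {x | f x = m}) fun _ hx => le_of_eq hx

lemma finFib_mul {p : ℕ} (hp : 1 ≤ p) : FinFib fun j => p * j := finFib_of_le fun w =>
  (Set.finite_Iic w).subset fun j (hj : p * j ≤ w) => (Nat.le_mul_of_pos_left j hp).trans hj

lemma ceil_series {q : ℕ} (hq : 1 ≤ q) :
    (mk fun s => (((s + q - 1) / q : ℕ) : ℤ)) * (1 - X ^ q) * (1 - X) = X := by
  have h : (PowerSeries.mk fun s => (((s + q - 1) / q : ℕ) : ℤ)) * (1 - X ^ q) =
      X * PowerSeries.mk 1 := by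
    ext n
    rw [mul_sub, mul_one, map_sub, coeff_mul_X_pow', coeff_mk, coeff_mk]
    rcases n with _ | n
    · simp [show q ≠ 0 by omega, Nat.div_eq_of_lt (show q - 1 < q by omega)]
    rw [coeff_succ_X_mul, coeff_mk, show n + 1 + q - 1 = n + q by omega, Nat.add_div_right _ hq]
    split_ifs with h
    · rw [show n + 1 - q + q - 1 = n by omega]
      simp
    · simp [Nat.div_eq_of_lt (show n < q by omega)]
  rw [h, mul_assoc, mk_one_mul_one_sub_eq_one, mul_one]

lemma sum_Icc_mul (q : ℕ) :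
    (∑ i ∈ Icc 1 q, (X : PowerSeries ℤ) ^ i) * (1 - X) = X - X ^ (q + 1) := by
  induction q with
  | zero => simp
  | succ q ih => rw [sum_Icc_succ_top (by omega), add_mul, ih]; ring

lemma one_sub_X_ne : (1 - X : PowerSeries ℤ) ≠ 0 := fun h => by
  simpa using congrArg constantCoeff h

lemma series_eq {q : ℕ} (hq : 2 ≤ q) {D G : PowerSeries ℤ} (hD : D * (1 - X ^ q) * (1 - G) = 1)
    (hG : ∀ s, coeff s G + (if 1 ≤ s ∧ (q - 1) ∣ s then 1 else 0) = ((s + q - 1) / q : ℕ)) :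
    D * (1 - ∑ i ∈ Icc 1 q, X ^ i) = 1 - X ^ (q - 1) := by
  have h1 := geo (p := q - 1) (by omega)
  have h2 := ceil_series (q := q) (by omega)
  have h3 : G = (mk fun s => (((s + q - 1) / q : ℕ) : ℤ)) + 1 -
      mk fun s => if q - 1 ∣ s then (1 : ℤ) else 0 := by
    ext s
    simp only [map_sub, map_add, coeff_mk, ← hG s, coeff_one]
    rcases s with _ | s <;> simp
  have h4 := sum_Icc_mul q
  obtain ⟨p, rfl⟩ : ∃ p, q = p + 1 := ⟨q - 1, by omega⟩
  rw [Nat.add_sub_cancel] at *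
  refine mul_right_cancel₀ one_sub_X_ne ?_
  rw [h3] at hD
  linear_combination (1 - X ^ p) * (1 - X) * hD - D * h4 -
    D * (1 - X ^ (p + 1)) * (1 - X) * h1 + D * (1 - X ^ p) * h2

end Pool.Agent.MP_3924c3_nt

end

section

/-! The dimension of the span of the finite multiple zeta values. -/

open Finset Polynomial Module

namespace Pool.Agent.MP_3924c3_nt

open Pool.Agent.MP_cbe134_nt.FF

section letters

variable {F k : Type*} [Field F] [Fintype F] [Field k] [Algebra F k] {t : k}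

lemma card_Let (s : ℕ) :
    Nat.card {l : Let F t // l.wt = s} = ∑ r ∈ range (s + 1), gg F t s r := by
  let e : {l : Let F t // l.wt = s} ≃ Σ r : Fin (s + 1), Fin (gg F t s r) :=
    { toFun := fun l => ⟨⟨l.1.dep, Nat.lt_succ_of_le (l.1.dep_le.trans l.2.le)⟩, l.1.idx,
        l.1.lt.trans_eq (congrArg (gg F t · l.1.dep) l.2)⟩
      invFun := fun x => ⟨⟨s, x.1, x.2, x.2.2⟩, rfl⟩
      left_inv := by rintro ⟨⟨_, _, _, _⟩, rfl⟩; rfl
      right_inv := fun _ => rfl }
  rw [Nat.card_congr e, Nat.card_sigma, ← Fin.sum_univ_eq_sum_range (gg F t s)]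
  simp

lemma coeff_cn_Let (ht : Tr F t) (s : ℕ) : PowerSeries.coeff s (cn (Let.wt (F := F) (t := t))) +
    (if 1 ≤ s ∧ (qq F - 1) ∣ s then 1 else 0) = ((s + qq F - 1) / qq F : ℕ) := by
  have hq := two_le_q (F := F)
  rw [coeff_cn, card_Let]
  rcases Nat.eq_zero_or_pos s with rfl | hs
  · simp [ht.gg_zero, Nat.div_eq_of_lt (show qq F - 1 < qq F by omega)]
  · rw [← ht.sum_gg hs (ht.QQ_self hs)]
    simp [show 1 ≤ s from hs]

end letters

variable (F : Type*) [Field F] [Fintype F]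

lemma finFib_wE : FinFib (wE (F := F)) := finFib_of_le fun w =>
  ((Set.finite_Iic w).prod (tr_X.finite_words w)).subset fun A (h : qq F * A.1 + wtL A.2 ≤ w) => by
    have := Nat.le_mul_of_pos_left A.1 (show 0 < qq F by have := two_le_q (F := F); omega)
    exact ⟨by simp only [Set.mem_Iic]; omega, by simp only [Set.mem_ofPred_eq]; omega⟩

theorem dim_series : PowerSeries.mk (fun w => (finrank (RatFunc F) (ZA F w) : ℤ)) *
    (1 - ∑ i ∈ Icc 1 (qq F), PowerSeries.X ^ i) = 1 - PowerSeries.X ^ (qq F - 1) := by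
  have hq := two_le_q (F := F)
  obtain ⟨P, hP⟩ := (tr_X (F := F)).exists_adapted gen_X
  obtain ⟨E, hE⟩ := exists_E hP
  have h1 : PowerSeries.mk (fun w => (finrank (RatFunc F) (ZA F w) : ℤ)) = cn (wE (F := F)) := by
    ext w
    have := finFib_wE F w
    let i := Fintype.ofFinite {A // wE (F := F) A = w}
    let _ : Fintype {A | wE (F := F) A = w} := i
    rw [PowerSeries.coeff_mk, coeff_cn, ZA_eq hP hE, Set.image_eq_range, Nat.card_eq_fintype_card]
    exact congrArg _ (finrank_span_eq_card ((indep_E hP hE).comp _ Subtype.val_injective))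
  have h2 : FinFib (Let.wt (F := F) (t := (RatFunc.X : RatFunc F))) := finFib_of_le finite_Let
  have h3 : FinFib (wtL (F := F) (t := (RatFunc.X : RatFunc F))) := finFib_of_le tr_X.finite_words
  refine series_eq hq ?_ (coeff_cn_Let (tr_X (F := F)))
  rw [h1, show cn (wE (F := F)) = _ from cn_prod (finFib_mul (by omega)) h3]
  have h4 : cn wtL * (1 - cn Let.wt) = 1 := cn_list h2 h3
  rw [mul_right_comm (cn _), cn_mul (by omega), one_mul, h4]

theorem weights_indep : iSupIndep (ZA F) := by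
  obtain ⟨P, hP⟩ := (tr_X (F := F)).exists_adapted gen_X
  obtain ⟨E, hE⟩ := exists_E hP
  intro w
  refine ((indep_E hP hE).disjoint_span_image (s := {A | wE A = w}) (t := {A | wE A = w}ᶜ)
    disjoint_compl_right).mono (ZA_eq hP hE w).le (iSup₂_le fun v hv => ?_)
  rw [ZA_eq hP hE v]
  exact Submodule.span_mono (Set.image_mono fun A (h : wE A = v) e => hv (h.symm.trans e))

end Pool.Agent.MP_3924c3_nt

end

section

/-! Reduction to words of Thakur type. -/

open Finset Polynomial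

namespace Pool.Agent.MP_3924c3_nt

open Pool.Agent.MP_cbe134_nt.FF

variable {F k : Type*} [Field F] [Fintype F] [Field k] [Algebra F k] {t : k}

variable (F t) in
/-- the sequence `1 / ℓ_d` -/
noncomputable def xs : ℕ → k := letK F t 1 1

variable (F t) in
/-- truncated multiple polylogarithms at one -/
noncomputable def Li (s : List ℕ) : ℕ → k := Wlt (fun a => xs F t ^ a) s

omit [Field F] [Algebra F k] in
lemma Li_cons (a : ℕ) (s : List ℕ) : Li F t (a :: s) = psum k (xs F t ^ a * Li F t s) := rfl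

omit [Field F] [Algebra F k] in
lemma xs_pow (a : ℕ) : xs F t ^ a = letK F t a 1 := by rw [xs, lett_pow, mul_one, one_pow]

lemma letK_Z (ht : Tr F t) :
    letK F t (qq F - 1) (C (t ^ qq F) - X) = (t - t ^ qq F) • Li F t [qq F - 1] := by
  have hq := two_le_q (F := F)
  have h1 : Rel (qq F) t (qq F - 1) (C (t ^ qq F) - X) ((t - t ^ qq F) • 1) := by
    rw [MP_cbe134_nt.FF.Rel, expand_Z, smul_eq_C_mul, mul_one, C_sub,
      show C (t ^ qq F) - X + (C t - C (t ^ qq F)) = C t - X by ring, ← pow_succ]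
    congr 1
    omega
  rw [(ht.rel_iff (by omega)).1 h1, map_smul, map_smul, Li_cons, xs_pow]
  exact congrArg _ (congrArg _ (mul_one _).symm)

lemma psum_shift (ht : Tr F t) (f : ℕ → k) :
    psum k (xs F t ^ qq F * fun d => f (d + 1)) = (t - t ^ qq F) •
      (psum k (xs F t * (Li F t [qq F - 1] * f)) + xs F t * (Li F t [qq F - 1] * f)) := by
  have hq := two_le_q (F := F)
  have h : vp F t = (t - t ^ qq F) • (xs F t * Li F t [qq F - 1]) := by
    rw [← mul_smul_comm, ← letK_Z ht, xs, lett_mul, one_mul, vp, Nat.add_sub_cancel' (by omega)]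
  refine (eq_psum (by simp [psum_zero, Li_cons]) fun d => ?_).symm
  have h1 := congrFun h (d + 1)
  rw [vp_succ ht] at h1
  have h2 : (xs F t ^ qq F) d = (LL F t d)⁻¹ ^ qq F := by simp [xs, lett_apply, LL]
  simp only [Pi.smul_apply, Pi.add_apply, Pi.mul_apply, psum_succ, h2, h1, smul_eq_mul]
  ring

/-- words of Thakur type -/
def Th (q : ℕ) (s : List ℕ) : Prop := (∀ a ∈ s, 1 ≤ a ∧ a ≤ q) ∧ s.getLast? ≠ some q

lemma Th.cons {q a : ℕ} {s : List ℕ} (h : Th q s) (h1 : 1 ≤ a) (h2 : a ≤ q)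
    (h3 : a = q → s ≠ []) : Th q (a :: s) := by
  refine ⟨by simpa [h1, h2] using h.1, ?_⟩
  cases s with
  | nil => simpa using fun e => h3 e rfl
  | cons b s => simpa only [List.getLast?_cons_cons] using h.2

variable (F t) (R : Type*) [CommRing R] [Algebra R k]

/-- the span of all words -/
noncomputable def Lw (w : ℕ) : Submodule R (ℕ → k) :=
  Submodule.span R {x | ∃ s : List ℕ, (∀ a ∈ s, 1 ≤ a) ∧ s.sum = w ∧ x = Li F t s}

/-- the span of the words of Thakur type -/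
noncomputable def Tw (w : ℕ) : Submodule R (ℕ → k) :=
  Submodule.span R {x | ∃ s : List ℕ, Th (qq F) s ∧ s.sum = w ∧ x = Li F t s}

/-- the span of the boundary terms -/
noncomputable def Xw (w : ℕ) : Submodule R (ℕ → k) := Submodule.span R
  {x | ∃ (b : ℕ) (s : List ℕ), 1 ≤ b ∧ Th (qq F) s ∧ b + s.sum = w ∧ x = xs F t ^ b * Li F t s}

/-- adding a first letter -/
noncomputable def cs (a : ℕ) : (ℕ → k) →ₗ[R] ℕ → k :=
  (psum k).restrictScalars R ∘ₗ LinearMap.mulLeft R (xs F t ^ a)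

variable {F t R} {a w w' : ℕ} {f g : ℕ → k}

omit [Field F] [Algebra F k] in
lemma fg_Lw : (Lw F t R w).FG := Submodule.fg_span
  ((Set.finite_range fun c : Composition w => Li F t c.blocks).subset (by
    rintro _ ⟨s, h1, h2, rfl⟩
    exact ⟨⟨s, fun {a} ha => h1 a ha, h2⟩, rfl⟩))

omit [Field F] [Algebra F k] in
lemma Li_mem {s : List ℕ} (h : ∀ a ∈ s, 1 ≤ a) : Li F t s ∈ Lw F t R s.sum :=
  Submodule.subset_span ⟨s, h, rfl, rfl⟩

omit [Field F] [Algebra F k] in
lemma cs_mem (ha : 1 ≤ a) (hf : f ∈ Lw F t R w) : psum k (xs F t ^ a * f) ∈ Lw F t R (a + w) := by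
  refine (Submodule.span_le (p := (Lw F t R (a + w)).comap (cs F t R a))).2 ?_ hf
  rintro _ ⟨s, h1, rfl, rfl⟩
  exact Li_mem (s := a :: s) (by simpa [ha] using h1)

omit [Field F] [Algebra F k] in
lemma stuffle (s s' : List ℕ) (h : ∀ a ∈ s, 1 ≤ a) (h' : ∀ a ∈ s', 1 ≤ a) :
    Li F t s * Li F t s' ∈ Lw F t R (s.sum + s'.sum) := by
  induction s generalizing s' with
  | nil => simpa [Li, Wlt_nil] using Li_mem h'
  | cons a s ih =>
    induction s' with
    | nil => simpa [Li, Wlt_nil] using Li_mem h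
    | cons b s' ih' =>
      have ha := h a (by simp)
      have hb := h' b (by simp)
      have h1 : ∀ c ∈ s, 1 ≤ c := fun c hc => h c (by simp [hc])
      have h2 : ∀ c ∈ s', 1 ≤ c := fun c hc => h' c (by simp [hc])
      have e1 := cs_mem ha (ih _ h1 h')
      have e2 := cs_mem hb (ih' h2)
      have e3 := cs_mem (a := a + b) (by omega) (ih _ h1 h2)
      rw [Li_cons, Li_cons, psum_mul_psum, add_mul, map_add, ← Li_cons a, ← Li_cons b]
      simp only [List.sum_cons] at e1 e2 e3 ⊢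
      refine add_mem ?_ (add_mem ?_ ?_)
      · rwa [mul_assoc, add_assoc]
      · rwa [mul_left_comm, add_left_comm]
      · rwa [mul_mul_mul_comm, ← pow_add, add_add_add_comm]

omit [Field F] [Algebra F k] in
lemma mul_mem_Lw (hf : f ∈ Lw F t R w) (hg : g ∈ Lw F t R w') : f * g ∈ Lw F t R (w + w') := by
  have : Lw F t R w * Lw F t R w' ≤ Lw F t R (w + w') := by
    rw [Lw, Lw, Submodule.span_mul_span, Submodule.span_le]
    rintro _ ⟨_, ⟨s, h1, rfl, rfl⟩, _, ⟨s', h2, rfl, rfl⟩, rfl⟩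
    exact stuffle s s' h1 h2
  exact this (Submodule.mul_mem_mul hf hg)

variable {I : Ideal R}

omit [Field F] [Algebra F k] in
lemma map_mem_of (φ : (ℕ → k) →ₗ[R] ℕ → k) {M N : Submodule R (ℕ → k)}
    (h1 : ∀ s, Th (qq F) s → s.sum = w → φ (Li F t s) ∈ M)
    (h2 : ∀ b s, 1 ≤ b → Th (qq F) s → b + s.sum = w → φ (xs F t ^ b * Li F t s) ∈ N)
    (hf : f ∈ Tw F t R w ⊔ I • Xw F t R w) : φ f ∈ M ⊔ I • N := by
  have h := Submodule.mem_map_of_mem (f := φ) hf
  rw [Submodule.map_sup, Submodule.map_smul''] at h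
  refine SetLike.le_def.1 (sup_le_sup ?_ (Submodule.smul_mono le_rfl ?_)) h <;>
    refine Submodule.map_le_iff_le_comap.2 (Submodule.span_le.2 ?_)
  · rintro _ ⟨s, h3, h4, rfl⟩
    exact h1 s h3 h4
  · rintro _ ⟨b, s, h3, h4, h5, rfl⟩
    exact h2 b s h3 h4 h5

omit [Field F] [Algebra F k] in
lemma mul_mem_Xw (ha : 1 ≤ a) (hf : f ∈ Tw F t R w ⊔ I • Xw F t R w) :
    xs F t ^ a * f ∈ Xw F t R (a + w) :=
  SetLike.le_def.1 (sup_le le_rfl Submodule.smul_le_right) (map_mem_of (LinearMap.mulLeft R (xs F t ^ a))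
    (fun s h1 h2 => Submodule.subset_span ⟨a, s, ha, h1, by rw [h2], rfl⟩)
    (fun b s h1 h2 h3 => Submodule.subset_span ⟨a + b, s, by omega, h2, by omega, by
      rw [LinearMap.mulLeft_apply, pow_add, mul_assoc]⟩) hf)

omit [Field F] [Algebra F k] in
lemma cs_mem_of {M : Submodule R (ℕ → k)} {n : ℕ} (ha : 1 ≤ a) (hn : a + w = n)
    (h : ∀ s, Th (qq F) s → s.sum = w → Li F t (a :: s) ∈ M ⊔ I • Lw F t R n)
    (hf : f ∈ Tw F t R w ⊔ I • Xw F t R w) :
    psum k (xs F t ^ a * f) ∈ M ⊔ I • Lw F t R n :=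
  SetLike.le_def.1 (sup_le le_rfl le_sup_right) (map_mem_of (cs F t R a) h (fun b s h1 h2 h3 => by
    have := cs_mem (R := R) (F := F) (t := t) (a := a + b) (by omega)
      (Li_mem fun c hc => (h2.1 c hc).1)
    rwa [add_assoc, h3, hn, pow_add, mul_assoc] at this) hf)

variable {p : R}

theorem Lw_le (ht : Tr F t) (hp : algebraMap R k p = t - t ^ qq F) (hI : p ∈ I)
    (hJ : I ≤ Ideal.jacobson ⊥) (w : ℕ) : Lw F t R w ≤ Tw F t R w ⊔ I • Xw F t R w := by
  have hq := two_le_q (F := F)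
  induction w using Nat.strong_induction_on with
  | _ w ih =>
  refine Submodule.le_of_le_smul_of_le_jacobson_bot fg_Lw hJ (Submodule.span_le.2 ?_)
  have h1 : ∀ a s, 1 ≤ a → a ≤ qq F → (a = qq F → s ≠ []) → Th (qq F) s → a + s.sum = w →
      Li F t (a :: s) ∈ (Tw F t R w ⊔ I • Xw F t R w) ⊔ I • Lw F t R w :=
    fun a s h1 h2 h3 h4 h5 => Submodule.mem_sup_left (Submodule.mem_sup_left
      (Submodule.subset_span ⟨a :: s, h4.cons h1 h2 h3, h5, rfl⟩))
  have h2 : ∀ v f, f ∈ Lw F t R v → qq F + v = w → psum k (xs F t ^ qq F * fun d => f (d + 1)) ∈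
      (Tw F t R w ⊔ I • Xw F t R w) ⊔ I • Lw F t R w := fun v f hf hv => by
    have h3 := mul_mem_Lw (Li_mem (s := [qq F - 1]) (by simp; omega)) hf
    rw [List.sum_singleton] at h3
    have h4 := cs_mem le_rfl h3
    have h5 := mul_mem_Xw le_rfl (ih _ (by omega) h3)
    rw [pow_one, show 1 + (qq F - 1 + v) = w by omega] at h4 h5
    rw [psum_shift ht, ← hp, algebraMap_smul, smul_add]
    exact add_mem (Submodule.mem_sup_right (Submodule.smul_mem_smul hI h4))
      (Submodule.mem_sup_left (Submodule.mem_sup_right (Submodule.smul_mem_smul hI h5)))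
  rintro _ ⟨s, hs, hw, rfl⟩
  rcases s with _ | ⟨a, s⟩
  · exact Submodule.mem_sup_left (Submodule.mem_sup_left
      (Submodule.subset_span ⟨[], ⟨by simp, by simp⟩, hw, rfl⟩))
  have ha := hs a (by simp)
  rw [List.sum_cons] at hw
  refine cs_mem_of ha hw (fun s' h3 h4 => ?_)
    (ih _ (by omega) (Li_mem fun b hb => hs b (by simp [hb])))
  rw [← h4] at hw
  by_cases h5 : a ≤ qq F ∧ (a = qq F → s' ≠ [])
  · exact h1 a s' ha h5.1 h5.2 h3 hw
  rcases (show a = qq F ∨ qq F < a by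
    by_contra h
    exact h5 ⟨by omega, by omega⟩) with rfl | h6
  · obtain rfl : s' = [] := by simpa using h5
    exact h2 0 1 (Li_mem (s := []) (by simp)) hw
  obtain ⟨u, rfl⟩ := Nat.exists_eq_add_of_lt h6
  have h7 := Li_mem (F := F) (t := t) (R := R) (s := (u + 1) :: s')
    (by simpa using fun b hb => (h3.1 b hb).1)
  rw [List.sum_cons] at h7
  have h9 := sub_mem (h2 _ _ h7 (by omega)) (cs_mem_of (a := qq F) (by omega) (by omega)
    (fun s'' h8 h9 => h1 (qq F) s'' (by omega) le_rfl (by rintro - rfl; simp at h9; omega) h8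
      (by omega)) (ih _ (by omega) h7))
  rw [← map_sub, ← mul_sub] at h9
  convert h9 using 1
  rw [Li_cons, add_assoc, pow_add, mul_assoc]
  congr 2
  ext d
  simp [Li_cons, psum_succ]

variable (F t R) in
/-- the span of the basis words -/
noncomputable def Bw (w : ℕ) : Submodule R (ℕ → k) := Submodule.span R
  {x | ∃ s : List ℕ, (Th (qq F) s ∧ s.head? ≠ some (qq F) ∧ s ≠ [qq F - 1]) ∧ s.sum = w ∧
    x = Li F t s}

theorem Lw_le_Bw (ht : Tr F t) (hp : algebraMap R k p = t - t ^ qq F) (hI : p ∈ I)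
    (hJ : I ≤ Ideal.jacobson ⊥) {N : Submodule R (ℕ → k)}
    (hN : ∀ v, ∀ f ∈ Lw F t R v, Li F t [qq F - 1] * f ∈ N) (w : ℕ) :
    Lw F t R w ≤ Bw F t R w ⊔ N := by
  have hq := two_le_q (F := F)
  have hL := Lw_le ht hp hI hJ
  refine Submodule.le_of_le_smul_of_le_jacobson_bot fg_Lw hJ (Submodule.span_le.2 ?_)
  have key : ∀ a, 1 ≤ a → ∀ v f, a + v = w → f ∈ Lw F t R v →
      psum k (xs F t ^ a * f) ∈ (Bw F t R w ⊔ N) ⊔ I • Lw F t R w := fun a => by
    induction a using Nat.strong_induction_on with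
    | _ a ih =>
    refine fun ha v f hv hf => cs_mem_of ha hv (fun s h1 h2 => ?_) (hL _ hf)
    have h3 := Li_mem (F := F) (t := t) (R := R) fun b hb => (h1.1 b hb).1
    by_cases h4 : a < qq F
    · by_cases h5 : a :: s = [qq F - 1]
      · exact Submodule.mem_sup_left (Submodule.mem_sup_right (by
          simpa [h5, Li, Wlt_nil] using hN 0 _ (Li_mem (s := []) (by simp))))
      · exact Submodule.mem_sup_left (Submodule.mem_sup_left (Submodule.subset_span
          ⟨a :: s, ⟨h1.cons ha h4.le (by omega), by simp; omega, h5⟩, by simp; omega, rfl⟩))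
    obtain ⟨u, rfl⟩ : ∃ u, a = qq F - 1 + (u + 1) := ⟨a - qq F, by omega⟩
    have h5 := cs_mem (a := u + 1) (by omega) h3
    have h6 := sub_mem (sub_mem (Submodule.mem_sup_left (T := I • Lw F t R w)
      (Submodule.mem_sup_right (S := Bw F t R w) (hN _ _ h5)))
      (ih (qq F - 1) (by omega) (by omega) _ _ (by omega) h5))
      (ih (u + 1) (by omega) (by omega) _ _ (by simp; omega)
        (mul_mem_Lw (Li_mem (s := [qq F - 1]) (by simp; omega)) h3))
    convert h6 using 1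
    have h7 := psum_mul_psum (xs F t ^ (qq F - 1) * Li F t []) (xs F t ^ (u + 1) * Li F t s)
    rw [← Li_cons, add_mul, map_add, mul_left_comm (Li F t _)] at h7
    rw [h7, Li_cons, pow_add, Li, Li, Wlt_nil, mul_one, mul_assoc]
    ring
  rintro _ ⟨s, hs, hw, rfl⟩
  rcases s with _ | ⟨a, s⟩
  · exact Submodule.mem_sup_left (Submodule.mem_sup_left
      (Submodule.subset_span ⟨[], ⟨⟨by simp, by simp⟩, by simp, by simp⟩, hw, rfl⟩))
  exact key a (hs a (by simp)) _ _ hw (Li_mem fun b hb => hs b (by simp [hb]))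

lemma SS_small (ht : Tr F t) {a : ℕ} (h1 : 1 ≤ a) (h2 : a ≤ qq F) : SS F t a = xs F t ^ a := by
  induction a, h1 using Nat.le_induction with
  | base => rw [pow_one, xs, ht.SS_one]
  | succ a ha ih =>
    ext d
    rw [ht.SS_rec, if_neg (by omega), zero_add, sum_eq_single 0, pow_zero, if_pos ha,
      Nat.sub_add_cancel ha, ih (by omega), pow_succ', Pi.mul_apply]
    · simp [xs, cc, DD]
    · intro i _ hi
      have := Nat.pow_le_pow_right (show 0 < qq F by omega) (Nat.one_le_iff_ne_zero.2 hi)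
      rw [if_neg (by rw [pow_one] at this; omega)]
    · simp

lemma Li_eq (ht : Tr F t) {s : List ℕ} (h : ∀ a ∈ s, 1 ≤ a ∧ a ≤ qq F) :
    Li F t s = Wlt (SS F t) s := by
  induction s with
  | nil => rfl
  | cons a s ih =>
    rw [Li_cons, Wlt_cons, ih fun b hb => h b (by simp [hb]),
      SS_small ht (h a (by simp)).1 (h a (by simp)).2]

lemma Li_mem_Slt (ht : Tr F t) {s : List ℕ} (h : ∀ a ∈ s, 1 ≤ a) :
    Li F t s ∈ Slt F t s.sum s.sum := by
  have h1 : ∀ a, 1 ≤ a → xs F t ^ a ∈ Seq F t a a := fun a ha => by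
    induction a, ha using Nat.le_induction with
    | base => rw [pow_one, xs, ← ht.SS_one]; exact SS_mem le_rfl
    | succ a ha ih => rw [pow_succ, xs, ← ht.SS_one]; exact ht.mul_eq (ht.SS_one ▸ ih) (SS_mem le_rfl)
  induction s with
  | nil => exact one_mem_Slt
  | cons a s ih =>
    exact psum_mem (ht.mul_eq_lt (h1 a (h a (by simp))) (ih fun b hb => h b (by simp [hb])))

lemma Wlt_mem_Lw (ht : Tr F t) {s : List ℕ} (h : ∀ a ∈ s, 1 ≤ a) :
    Wlt (SS F t) s ∈ Lw F t k s.sum := by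
  have hq := two_le_q (F := F)
  have h1 : ∀ j, letK F t (j * (qq F - 1)) ((C (t ^ qq F) - X) ^ j) ∈ Lw F t k (j * (qq F - 1)) :=
    fun j => by
      induction j with
      | zero => simpa [lett_one, Li, Wlt_nil] using Li_mem (F := F) (t := t) (R := k) (s := []) (by simp)
      | succ j ih =>
        rw [pow_succ, add_mul, one_mul, ← lett_mul, letK_Z ht]
        exact mul_mem_Lw ih (Submodule.smul_mem _ _ (by
          simpa using Li_mem (F := F) (t := t) (R := k) (s := [qq F - 1]) (by simp; omega)))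
  induction s with
  | nil => exact Li_mem h
  | cons a s ih =>
    have ha := h a (by simp)
    obtain ⟨H, h5, h6, -⟩ := ht.exists_H' ha
    rw [Wlt_cons, h6]
    refine degreeLT_le_of_triangular (c := t ^ qq F) (W := (Lw F t k (a :: s).sum).comap
      (psum k ∘ₗ LinearMap.mulRight k (Wlt (SS F t) s) ∘ₗ letK F t a)) (fun j hj => ?_) h5.1
    have h2 : j * (qq F - 1) < a := by
      have := (Nat.le_div_iff_mul_le (show 0 < qq F - 1 by omega)).1 (Nat.lt_succ_iff.1 hj)
      omega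
    refine ⟨1, by simp, ?_, ?_⟩
    · have h3 := cs_mem (a := a - j * (qq F - 1)) (by omega)
        (mul_mem_Lw (h1 j) (ih fun b hb => h b (by simp [hb])))
      rwa [← mul_assoc, xs_pow, lett_mul, ← add_assoc, Nat.sub_add_cancel h2.le] at h3
    · rw [one_mul, SetLike.mem_coe, mem_degreeLT, ← natDegree_lt_iff_degree_lt
        (pow_ne_zero _ (Y_ne _)), natDegree_pow, natDegree_Y, mul_one]
      exact hj

end Pool.Agent.MP_3924c3_nt

end
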